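import Pool.Agent.K7.H64.BQ.Grow

/-!
Sets of integers with a large sumset: the multiples of `6` are sums of `k` elements.
-/

set_option autoImplicit false

open Finset
open scoped Pointwise

namespace Pool.Agent.K7.H64.BQ

theorem dvd_six {g : ℕ} (h : ∀ q, q ∣ g → ¬ (q = 4 ∨ q = 9 ∨ (q.Prime ∧ 5 ≤ q))) : g ∣ 6 := by
  have hsf : Squarefree g := by
    rw [Nat.squarefree_iff_prime_squarefree]
    intro p hp hpp
    have h1 : ¬ (5 ≤ p) := fun h5 => h p ((dvd_mul_right p p).trans hpp) (Or.inr (Or.inr ⟨hp, h5⟩))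
    have h2 := hp.two_le
    interval_cases p
    · exact h 4 (by simpa using hpp) (Or.inl rfl)
    · exact h 9 (by simpa using hpp) (Or.inr (Or.inl rfl))
    · exact absurd hp (by norm_num)
  rw [← Nat.prod_primeFactors_of_squarefree hsf]
  have h1 : g.primeFactors ⊆ {2, 3} := by
    intro p hp
    rw [Nat.mem_primeFactors] at hp
    have h1 : ¬ (5 ≤ p) := fun h5 => h p hp.2.1 (Or.inr (Or.inr ⟨hp.1, h5⟩))
    have h2 := hp.1.two_le
    rw [mem_insert, mem_singleton]
    have h3 : p ≠ 4 := fun h4 => by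
      rw [h4] at hp
      exact absurd hp.1 (by norm_num)
    omega
  exact (prod_dvd_prod_of_subset _ _ _ h1).trans (by simp)

/-- **sums of `k` elements of a set with a large sumset** -/
theorem represent {δ : ℝ} (hδ : 0 < δ) : ∃ k0 K G0 : ℕ, 0 < K ∧ ∀ k : ℕ, k0 ≤ k →
    ∀ (y : ℕ) (T : Finset ℕ), T ⊆ Icc 1 y → 4 ≤ δ * y → δ * y ≤ (T + T).card →
    (∃ s ∈ T, k * s ≤ y) →
    (∀ q ≤ G0, (q = 4 ∨ q = 9 ∨ (q.Prime ∧ 5 ≤ q)) → ∃ s ∈ T, ∃ t ∈ T, ¬ s ≡ t [MOD q]) →
    ∀ n : ℕ, (∀ q, (q = 2 ∨ q = 3) → (∃ s ∈ T, ∃ t ∈ T, ¬ s ≡ t [MOD q]) ∨ ∃ t ∈ T, k * t ≡ n [MOD q]) →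
    K * y ≤ n → n ≤ 3 * K * y →
    ∃ m : Multiset ℕ, Multiset.card m = k ∧ (∀ x ∈ m, x ∈ T) ∧ m.sum = n := by
  classical
  obtain ⟨J, hJ⟩ := pow_unbounded_of_one_lt (3 / δ) (by norm_num : (1 : ℝ) < 3 / 2)
  obtain ⟨M, hM⟩ : ∃ M : ℕ, M = 2 ^ J := ⟨_, rfl⟩
  obtain ⟨K, hK⟩ : ∃ K : ℕ, K = 2 * M + 1 := ⟨_, rfl⟩
  obtain ⟨k', hk'⟩ := exists_nat_ge (2 * M + 9 * K / δ)
  obtain ⟨G1, hG1⟩ := exists_nat_ge (4 / δ)
  refine ⟨k', K, G1, by omega, ?_⟩
  intro k hk y T hTy hy4 hTT hsmall hmix n hn6 hnK hn3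
  have hkr : 2 * M + 9 * K / δ ≤ k := hk'.trans (by exact_mod_cast hk)
  have hy0 : (0 : ℝ) < y := by
    by_contra hcon
    push Not at hcon
    nlinarith
  obtain ⟨s, hsT, hsy⟩ := hsmall
  have hne : T.Nonempty := ⟨s, hsT⟩
  obtain ⟨s0, hs0T, hs0⟩ : ∃ s0 ∈ T, ∀ t ∈ T, s0 ≤ t := ⟨T.min' hne, T.min'_mem hne, fun t ht => T.min'_le t ht⟩
  obtain ⟨s1, hs1T, hs1⟩ : ∃ s1 ∈ T, ∀ t ∈ T, t ≤ s1 := ⟨T.max' hne, T.max'_mem hne, fun t ht => T.le_max' t ht⟩
  have hks0 : k * s0 ≤ y := (Nat.mul_le_mul_left k (hs0 s hsT)).trans hsy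
  have hs1y : s1 ≤ y := (mem_Icc.1 (hTy hs1T)).2
  obtain ⟨l, hl⟩ : ∃ l : ℕ, s1 = s0 + l := ⟨s1 - s0, by have := hs1 s0 hs0T; omega⟩
  -- the sumset lies in an interval
  have hTTsub : T + T ⊆ Icc (2 * s0) (2 * s0 + 2 * l) := by
    intro x hx
    obtain ⟨a, ha, b, hb, rfl⟩ := mem_add.1 hx
    rw [mem_Icc]
    have := hs0 a ha
    have := hs0 b hb
    have := hs1 a ha
    have := hs1 b hb
    omega
  have hTTc : (T + T).card ≤ 2 * l + 1 := by
    refine (card_le_card hTTsub).trans ?_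
    rw [Nat.card_Icc]
    omega
  have hlow : δ * y / 3 ≤ l := by
    have h1 : ((T + T).card : ℝ) ≤ 2 * l + 1 := by exact_mod_cast hTTc
    linarith
  have hl0 : 0 < l := by
    have : (0 : ℝ) < l := by
      have : 0 < δ * y / 3 := by positivity
      linarith
    exact_mod_cast this
  have hly : l ≤ y := by omega
  have : NeZero l := ⟨hl0.ne'⟩
  -- the classes
  obtain ⟨B, hB⟩ : ∃ B : Finset (ZMod l), B = T.image (fun t : ℕ => (t : ZMod l) - s0) := ⟨_, rfl⟩
  have hB0 : (0 : ZMod l) ∈ B := by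
    rw [hB, mem_image]
    exact ⟨s0, hs0T, sub_self _⟩
  have hBB0 : (0 : ZMod l) ∈ B + B := mem_add.2 ⟨0, hB0, 0, hB0, add_zero _⟩
  have hcardBB : (T + T).card ≤ 3 * (B + B).card := by
    have h1 : ∀ x ∈ T + T, ((x : ZMod l) - 2 * s0) ∈ B + B := by
      intro x hx
      obtain ⟨a, ha, b, hb, rfl⟩ := mem_add.1 hx
      refine mem_add.2 ⟨(a : ZMod l) - s0, ?_, (b : ZMod l) - s0, ?_, ?_⟩
      · rw [hB]; exact mem_image_of_mem _ ha
      · rw [hB]; exact mem_image_of_mem _ hb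
      · push_cast; ring
    refine card_le_mul_card_image_of_maps_to h1 3 fun b _ => ?_
    -- the fibre
    rcases ((T + T).filter (fun x : ℕ => (x : ZMod l) - 2 * s0 = b)).eq_empty_or_nonempty with h3 | h3
    · rw [h3]; simp
    · obtain ⟨x0, hx0, hx0m⟩ : ∃ x0 ∈ (T + T).filter (fun x : ℕ => (x : ZMod l) - 2 * s0 = b),
          ∀ x ∈ (T + T).filter (fun x : ℕ => (x : ZMod l) - 2 * s0 = b), x0 ≤ x :=
        ⟨_, min'_mem _ h3, fun x hx => min'_le _ x hx⟩
      have h4 : (T + T).filter (fun x : ℕ => (x : ZMod l) - 2 * s0 = b) ⊆ {x0, x0 + l, x0 + 2 * l} := by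
        intro x hx
        have h5 := hx0m x hx
        rw [mem_filter] at hx hx0
        have h6 : (x : ZMod l) = x0 := by
          have := hx.2.trans hx0.2.symm
          exact sub_left_injective this
        rw [ZMod.natCast_eq_natCast_iff] at h6
        have h7 := (Nat.modEq_iff_dvd' h5).1 h6.symm
        obtain ⟨t, ht⟩ := h7
        have h8 := mem_Icc.1 (hTTsub hx.1)
        have h9 := mem_Icc.1 (hTTsub hx0.1)
        have h10 : t ≤ 2 := by
          by_contra hcon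
          push Not at hcon
          have : l * 3 ≤ l * t := Nat.mul_le_mul_left l hcon
          omega
        rw [mem_insert, mem_insert, mem_singleton]
        interval_cases t
        · left; omega
        · right; left; omega
        · right; right; omega
      exact (card_le_card h4).trans card_le_three
  -- the subgroup
  obtain ⟨H, hH⟩ := dense_gen (B + B) hBB0 J (by
    rw [ZMod.card]
    have h1 : ((T + T).card : ℝ) ≤ 3 * (B + B).card := by exact_mod_cast hcardBB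
    have h2 : (l : ℝ) ≤ y := by exact_mod_cast hly
    have h3 : (0 : ℝ) < (B + B).card := by
      have : 0 < (B + B).card := card_pos.2 ⟨0, hBB0⟩
      exact_mod_cast this
    calc (l : ℝ) ≤ y := h2
      _ = 1 / δ * (δ * y) := by field_simp
      _ ≤ 1 / δ * (3 * (B + B).card) := mul_le_mul_of_nonneg_left (hTT.trans h1) (by positivity)
      _ = 3 / δ * (B + B).card := by ring
      _ < (3 / 2 : ℝ) ^ J * (B + B).card := mul_lt_mul_of_pos_right hJ h3)
  rw [dbl_dbl] at hH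
  have hBH : ∀ b ∈ B, b ∈ H := fun b hb => (hH b).2 (dbl_mono (j := J + 1) hB0 (Nat.zero_le _) hb)
  -- its preimage in the integers
  obtain ⟨a, ha⟩ := Int.subgroup_cyclic (H.comap (Int.castAddHom (ZMod l)))
  have hmem : ∀ x : ℤ, ((x : ZMod l) ∈ H) ↔ (a.natAbs : ℤ) ∣ x := by
    intro x
    have h1 : x ∈ H.comap (Int.castAddHom (ZMod l)) ↔ (x : ZMod l) ∈ H := by
      rw [AddSubgroup.mem_comap]
      simp
    rw [← h1, ha, Int.natAbs_dvd, ← AddSubgroup.zmultiples_eq_closure, Int.mem_zmultiples_iff]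
  obtain ⟨g, hg⟩ : ∃ g : ℕ, g = a.natAbs := ⟨_, rfl⟩
  rw [← hg] at hmem
  have hgl : g ∣ l := by
    have h1 : (((l : ℤ) : ZMod l)) ∈ H := by
      have : (((l : ℤ) : ZMod l)) = 0 := by simp
      rw [this]
      exact H.zero_mem
    exact_mod_cast (hmem l).1 h1
  have hg0 : 0 < g := Nat.pos_of_dvd_of_pos hgl hl0
  have hcong : ∀ t ∈ T, g ∣ t - s0 := by
    intro t ht
    have h1 : (((t - s0 : ℕ) : ℤ) : ZMod l) ∈ H := by
      apply hBH
      rw [hB, mem_image]
      refine ⟨t, ht, ?_⟩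
      have := hs0 t ht
      push_cast [Nat.cast_sub this]
      ring
    exact_mod_cast (hmem _).1 h1
  -- it is not too thin
  have hgG : g ≤ G1 := by
    have h1 : (T + T).card ≤ 2 * l / g + 1 := by
      have h2 : ∀ x ∈ T + T, g ∣ x - 2 * s0 ∧ 2 * s0 ≤ x ∧ x ≤ 2 * s0 + 2 * l := by
        intro x hx
        have h3 := mem_Icc.1 (hTTsub hx)
        obtain ⟨a, ha, b, hb, rfl⟩ := mem_add.1 hx
        refine ⟨?_, h3.1, h3.2⟩
        have := hs0 a ha
        have := hs0 b hb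
        have e : a + b - 2 * s0 = (a - s0) + (b - s0) := by omega
        rw [e]
        exact dvd_add (hcong a ha) (hcong b hb)
      have h3 : (T + T).card ≤ (range (2 * l / g + 1)).card := by
        apply card_le_card_of_injOn (fun x => (x - 2 * s0) / g)
        · intro x hx
          obtain ⟨_, h5, h6⟩ := h2 x hx
          rw [mem_coe, mem_range]
          have h7 : (x - 2 * s0) / g ≤ 2 * l / g := Nat.div_le_div_right (by omega)
          exact Nat.lt_succ_of_le h7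
        · intro x hx x' hx' hxx
          obtain ⟨⟨u, hu⟩, h5, h6⟩ := h2 x hx
          obtain ⟨⟨u', hu'⟩, h5', h6'⟩ := h2 x' hx'
          simp only at hxx
          rw [hu, hu', Nat.mul_div_cancel_left _ hg0, Nat.mul_div_cancel_left _ hg0] at hxx
          rw [hxx] at hu
          omega
      rwa [card_range] at h3
    have h2 : ((T + T).card : ℝ) ≤ 2 * y / g + 1 := by
      have h3 : ((T + T).card : ℝ) ≤ ((2 * l / g : ℕ) : ℝ) + 1 := by exact_mod_cast h1
      have h4 : ((2 * l / g : ℕ) : ℝ) ≤ ((2 * l : ℕ) : ℝ) / g := Nat.cast_div_le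
      have h5 : ((2 * l : ℕ) : ℝ) / g ≤ 2 * y / g := by
        apply div_le_div_of_nonneg_right _ (Nat.cast_nonneg _)
        push_cast
        have : (l : ℝ) ≤ y := by exact_mod_cast hly
        linarith
      linarith
    have hgr : (0 : ℝ) < g := by exact_mod_cast hg0
    have h3 : δ * y / 2 ≤ 2 * y / g := by linarith
    have h4 : (g : ℝ) ≤ 4 / δ := by
      rw [le_div_iff₀ hgr] at h3
      rw [le_div_iff₀ hδ]
      have h5 : y * (g * δ) ≤ y * 4 := by linarith
      exact le_of_mul_le_mul_left h5 hy0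
    exact_mod_cast h4.trans hG1
  have hg6 : g ∣ 6 := by
    apply dvd_six
    intro q hq hbad
    obtain ⟨s, hs, t, ht, hst⟩ := hmix q ((Nat.le_of_dvd hg0 hq).trans hgG) hbad
    apply hst
    have h1 : s ≡ s0 [MOD q] := ((Nat.modEq_iff_dvd' (hs0 s hs)).2 (hq.trans (hcong s hs))).symm
    have h2 : t ≡ s0 [MOD q] := ((Nat.modEq_iff_dvd' (hs0 t ht)).2 (hq.trans (hcong t ht))).symm
    exact h1.trans h2.symm
  -- the representation
  have hmemn : (((n : ℤ) - k * s0 : ℤ) : ZMod l) ∈ H := by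
    rw [hmem]
    have h1 : ∀ q : ℕ, (q = 2 ∨ q = 3) → q ∣ g → (q : ℤ) ∣ (n : ℤ) - k * s0 := by
      intro q hq hqg
      have h2 : ∀ t ∈ T, t ≡ s0 [MOD q] := fun t ht =>
        ((Nat.modEq_iff_dvd' (hs0 t ht)).2 (hqg.trans (hcong t ht))).symm
      rcases hn6 q hq with ⟨s, hs, t, ht, hst⟩ | ⟨t, ht, htn⟩
      · exact absurd ((h2 s hs).trans (h2 t ht).symm) hst
      · have h3 : k * s0 ≡ n [MOD q] := ((h2 t ht).mul_left k).symm.trans htn
        have h4 := (Nat.modEq_iff_dvd).1 h3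
        push_cast at h4
        exact h4
    have h2 : g ≤ 6 := Nat.le_of_dvd (by norm_num) hg6
    interval_cases g
    · exact one_dvd _
    · exact h1 2 (Or.inl rfl) dvd_rfl
    · exact h1 3 (Or.inr rfl) dvd_rfl
    · exact absurd hg6 (by decide)
    · exact absurd hg6 (by decide)
    · have h3 := h1 2 (Or.inl rfl) (by decide)
      have h4 := h1 3 (Or.inr rfl) (by decide)
      push_cast at h3 h4 ⊢
      omega
  obtain ⟨S, hS1, hS2, hS3⟩ := dbl_multi (J + 1) _ ((hH _).1 hmemn)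
  have hτ : ∀ b : ZMod l, ∃ t : ℕ, b ∈ B → t ∈ T ∧ (t : ZMod l) - s0 = b := by
    intro b
    by_cases hb : b ∈ B
    · rw [hB, mem_image] at hb
      obtain ⟨t, ht, htb⟩ := hb
      exact ⟨t, fun _ => ⟨ht, htb⟩⟩
    · exact ⟨0, fun h => absurd h hb⟩
  choose τ hτ using hτ
  obtain ⟨R, hR⟩ : ∃ R : ℕ, R = (S.map τ).sum := ⟨_, rfl⟩
  have hScard : Multiset.card S = 2 * M := by rw [hS1, hM]; ring
  have hRmod : (R : ZMod l) = (n : ZMod l) - k * s0 + 2 * M * s0 := by
    rw [hR, Nat.cast_multiset_sum, Multiset.map_map]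
    have h1 : S.map ((fun t : ℕ => (t : ZMod l)) ∘ τ) = S.map (fun b : ZMod l => b + (s0 : ZMod l)) := by
      apply Multiset.map_congr rfl
      intro b hb
      have := (hτ b (hS2 b hb)).2
      simp only [Function.comp]
      linear_combination this
    have h2 : (S.map (Nat.cast ∘ τ) : Multiset (ZMod l)) = S.map ((fun t : ℕ => (t : ZMod l)) ∘ τ) := rfl
    rw [h2, h1, Multiset.sum_map_add, Multiset.map_id', hS3, Multiset.map_const', Multiset.sum_replicate, hScard]
    push_cast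
    rw [nsmul_eq_mul]
    push_cast
    ring
  have hRle : R ≤ 2 * M * y := by
    rw [hR]
    have h1 := Multiset.sum_le_card_nsmul (S.map τ) y (fun x hx => by
      obtain ⟨b, hb, rfl⟩ := Multiset.mem_map.1 hx
      exact (mem_Icc.1 (hTy (hτ b (hS2 b hb)).1)).2)
    rwa [Multiset.card_map, hScard, smul_eq_mul] at h1
  have h2Mk : 2 * M ≤ k := by
    have h1 : (0 : ℝ) ≤ 9 * K / δ := by positivity
    have h2 : (2 * M : ℝ) ≤ k := by linarith
    exact_mod_cast h2
  obtain ⟨w, hw⟩ : ∃ w : ℕ, k = 2 * M + w := ⟨k - 2 * M, by omega⟩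
  have hws : w * s0 ≤ y := (Nat.mul_le_mul_right s0 (by omega : w ≤ k)).trans hks0
  have hle : R + w * s0 ≤ n := by
    have : K * y = 2 * M * y + y := by rw [hK]; ring
    omega
  have hdvd : l ∣ n - (R + w * s0) := by
    rw [← ZMod.natCast_eq_zero_iff, Nat.cast_sub hle]
    push_cast
    rw [hRmod, hw]
    push_cast
    ring
  obtain ⟨i, hi⟩ := hdvd
  have hiw : i ≤ w := by
    have h1 : (l : ℝ) * i ≤ n := by
      have : l * i ≤ n := by rw [← hi]; exact Nat.sub_le _ _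
      exact_mod_cast this
    have h2 : (n : ℝ) ≤ 3 * K * y := by exact_mod_cast hn3
    have h3 : δ * y / 3 * i ≤ l * i := mul_le_mul_of_nonneg_right hlow (Nat.cast_nonneg _)
    have h4 : (i : ℝ) ≤ 9 * K / δ := by
      rw [le_div_iff₀ hδ]
      have h5 : y * (i * δ) ≤ y * (9 * K) := by linarith
      exact le_of_mul_le_mul_left h5 hy0
    have h5 : (2 * M + i : ℝ) ≤ k := by linarith
    have h6 : 2 * M + i ≤ k := by exact_mod_cast h5
    omega
  obtain ⟨v, hv⟩ : ∃ v : ℕ, w = i + v := ⟨w - i, by omega⟩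
  refine ⟨S.map τ + Multiset.replicate i s1 + Multiset.replicate v s0, ?_, ?_, ?_⟩
  · rw [Multiset.card_add, Multiset.card_add, Multiset.card_map, hScard, Multiset.card_replicate,
      Multiset.card_replicate, hw, hv]
    ring
  · intro x hx
    rcases Multiset.mem_add.1 hx with hx | hx
    · rcases Multiset.mem_add.1 hx with hx | hx
      · obtain ⟨b, hb, rfl⟩ := Multiset.mem_map.1 hx
        exact (hτ b (hS2 b hb)).1
      · rw [Multiset.eq_of_mem_replicate hx]
        exact hs1T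
    · rw [Multiset.eq_of_mem_replicate hx]
      exact hs0T
  · rw [Multiset.sum_add, Multiset.sum_add, ← hR, Multiset.sum_replicate, Multiset.sum_replicate, smul_eq_mul,
      smul_eq_mul, hl]
    have h1 : n = (R + w * s0) + l * i := by omega
    rw [h1, hv]
    ring

end Pool.Agent.K7.H64.BQ
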