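import Pool.Agent.K7.H64.LS.Uni
import Pool.Agent.K7.H64.LS.Sums2
import Pool.Agent.K7.H64.BQ.Rep

/-!
Sets with the right order of elements, most of which survive a sieve: the sumset has positive density.
-/

set_option autoImplicit false

open Finset
open scoped Pointwise

namespace Pool.Agent.K7.H64.BQ

open Pool.Agent.Y843.HS
open Pool.Agent.K7.H64.LS

/-- `n` avoids the classes of `Z` for the primes up to `N ^ κ` -/
def Free (Z : ℕ → Finset ℕ) (κ : ℝ) (N n : ℕ) : Prop :=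
  ∀ q : ℕ, q.Prime → (q : ℝ) ≤ (N : ℝ) ^ κ → n % q ∉ Z q

theorem log_sqrt (r : ℕ) {c : ℝ} (hc : 0 < c) (C : ℝ) : ∃ N0 : ℕ, ∀ N : ℕ, N0 ≤ N →
    C * Real.sqrt N * Real.log N ^ r ≤ c * N := by
  obtain ⟨C', hC', h⟩ := log_pow_le' r
  obtain ⟨M, hM⟩ := exists_nat_ge (|C| * C' / c)
  refine ⟨M ^ 4 + 1, fun N hN => ?_⟩
  have hN1 : 1 ≤ N := by omega
  have hN0 : (0 : ℝ) < N := by exact_mod_cast hN1
  have h1 := h N hN1
  have h2 : |C| * C' ≤ c * (N : ℝ) ^ (1 / 4 : ℝ) := by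
    have h3 : (M : ℝ) ≤ (N : ℝ) ^ (1 / 4 : ℝ) := by
      calc (M : ℝ) = ((M : ℝ) ^ 4) ^ (1 / 4 : ℝ) := by
            rw [← Real.rpow_natCast, ← Real.rpow_mul (Nat.cast_nonneg _)]
            norm_num
        _ ≤ (N : ℝ) ^ (1 / 4 : ℝ) := by
            apply Real.rpow_le_rpow (by positivity) _ (by norm_num)
            exact_mod_cast (by omega : M ^ 4 ≤ N)
    have h4 := hM.trans h3
    rw [div_le_iff₀ hc] at h4
    linarith
  have hl : 0 ≤ Real.log N ^ r := pow_nonneg (Real.log_nonneg (by exact_mod_cast hN1)) r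
  calc C * Real.sqrt N * Real.log N ^ r ≤ |C| * Real.sqrt N * (C' * (N : ℝ) ^ (1 / 4 : ℝ)) := by
        have := le_abs_self C
        gcongr
    _ = (|C| * C') * (Real.sqrt N * (N : ℝ) ^ (1 / 4 : ℝ)) := by ring
    _ ≤ (c * (N : ℝ) ^ (1 / 4 : ℝ)) * (Real.sqrt N * (N : ℝ) ^ (1 / 4 : ℝ)) :=
        mul_le_mul_of_nonneg_right h2 (by positivity)
    _ = c * N := by
        rw [Real.sqrt_eq_rpow]
        have : (N : ℝ) ^ (1 / 4 : ℝ) * ((N : ℝ) ^ (1 / 2 : ℝ) * (N : ℝ) ^ (1 / 4 : ℝ)) = N := by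
          rw [← Real.rpow_add hN0, ← Real.rpow_add hN0]
          norm_num
        calc c * (N : ℝ) ^ (1 / 4 : ℝ) * ((N : ℝ) ^ (1 / 2 : ℝ) * (N : ℝ) ^ (1 / 4 : ℝ)) =
              c * ((N : ℝ) ^ (1 / 4 : ℝ) * ((N : ℝ) ^ (1 / 2 : ℝ) * (N : ℝ) ^ (1 / 4 : ℝ))) := by ring
          _ = _ := by rw [this]

open Classical in
/-- **positive density of the sumset** -/
theorem full (r : ℕ) {κ : ℝ} (hκ : 0 < κ) (hκ1 : κ ≤ 1) {c1 : ℝ} (hc1 : 0 < c1) (C3 : ℝ) :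
    ∃ δ : ℝ, 0 < δ ∧ ∃ y0 : ℕ, ∀ y : ℕ, y0 ≤ y → ∀ Z : ℕ → Finset ℕ,
    (∀ q : ℕ, q.Prime → (Z q).card ≤ r ∧ (Z q).card < q ∧ ∀ c ∈ Z q, c < q) →
    ∀ T : Finset ℕ, T ⊆ Icc 1 y → ((T.filter (fun n => ¬ Free Z κ y n)).card : ℝ) ≤ C3 * Real.sqrt y →
    c1 * (y * VV Z 0 ⌊(y : ℝ) ^ κ⌋₊) ≤ T.card → δ * y ≤ (T + T).card := by
  obtain ⟨C, hC, hsum⟩ := sums2 r hκ
  obtain ⟨cV, hcV, hVlow⟩ := Pool.Agent.Y843.HG.VV_low r
  obtain ⟨k1, hk1⟩ := exists_nat_ge (C / (c1 / 2) ^ 8)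
  obtain ⟨c2, hc2, hc21, hlow⟩ := low_const r 0 k1
  obtain ⟨y1, hy1⟩ := log_sqrt (2 * r) (c := c1 * cV / 2) (by positivity) C3
  obtain ⟨y2, hy2⟩ : ∃ y2 : ℕ, ∀ y : ℕ, y2 ≤ y → ((k1 + 2 * r + 3 : ℕ) : ℝ) ≤ (y : ℝ) ^ κ := by
    obtain ⟨y2, hy2⟩ := exists_nat_ge (((k1 + 2 * r + 3 : ℕ) : ℝ) ^ (1 / κ))
    refine ⟨y2, fun y hy => ?_⟩
    have h1 : ((k1 + 2 * r + 3 : ℕ) : ℝ) ^ (1 / κ) ≤ y := hy2.trans (by exact_mod_cast hy)
    calc ((k1 + 2 * r + 3 : ℕ) : ℝ) = (((k1 + 2 * r + 3 : ℕ) : ℝ) ^ (1 / κ)) ^ κ := by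
          rw [← Real.rpow_mul (Nat.cast_nonneg _), one_div_mul_cancel hκ.ne', Real.rpow_one]
      _ ≤ _ := Real.rpow_le_rpow (by positivity) h1 hκ.le
  refine ⟨c1 * c2 / (2 * C), by positivity, y1 + y2 + 2, ?_⟩
  intro y hy Z hZ T hTy hexc hTc
  have hy1' := hy1 y (by omega)
  have hy2' := hy2 y (by omega)
  have hyN : 1 ≤ y := by omega
  have hy0 : (0 : ℝ) < y := by exact_mod_cast hyN
  have hyr1 : (1 : ℝ) ≤ y := by exact_mod_cast hyN
  obtain ⟨Y, hY⟩ : ∃ Y : ℕ, Y = ⌊(y : ℝ) ^ κ⌋₊ := ⟨_, rfl⟩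
  rw [← hY] at hTc
  have hkY : k1 + 2 * r + 3 ≤ Y := by
    rw [hY]
    exact Nat.le_floor hy2'
  have hYy : Y ≤ y := by
    rw [hY]
    apply Nat.floor_le_of_le
    calc (y : ℝ) ^ κ ≤ (y : ℝ) ^ (1 : ℝ) := Real.rpow_le_rpow_of_exponent_le hyr1 hκ1
      _ = y := Real.rpow_one _
  have hZ' : ∀ a b : ℕ, ∀ p ∈ Pr a b, (Z p).card ≤ r ∧ (Z p).card < p ∧ ∀ c ∈ Z p, c < p :=
    fun a b p hp => hZ p (Pr_prime hp)
  obtain ⟨V, hV⟩ : ∃ V : ℝ, V = VV Z 0 Y := ⟨_, rfl⟩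
  rw [← hV] at hTc
  have hV0 : 0 < V := by rw [hV]; exact VV_nonneg fun p hp => (hZ' 0 Y p hp).2.1
  -- a lower bound for the product
  have hVl : cV / Real.log y ^ (2 * r) ≤ V := by
    have h1 := hVlow Y (by omega) Z (hZ' 0 Y)
    rw [← hV] at h1
    refine le_trans ?_ h1
    have hY1 : (1 : ℝ) < Y := by exact_mod_cast (by omega : 1 < Y)
    have hlY : 0 < Real.log Y := Real.log_pos hY1
    apply div_le_div_of_nonneg_left hcV.le (by positivity)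
    apply pow_le_pow_left₀ hlY.le
    exact Real.log_le_log (by linarith) (by exact_mod_cast hYy)
  have hly : 0 < Real.log y := by
    apply Real.log_pos
    exact_mod_cast (by omega : 1 < y)
  -- most elements are free
  obtain ⟨T', hT'⟩ : ∃ T' : Finset ℕ, T' = T.filter (fun n => Free Z κ y n) := ⟨_, rfl⟩
  have hT'T : T' ⊆ T := by rw [hT']; exact filter_subset _ _
  have hcard : c1 / 2 * (y * V) ≤ T'.card := by
    have h1 : (T.card : ℝ) = T'.card + (T.filter (fun n => ¬ Free Z κ y n)).card := by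
      rw [hT']
      exact_mod_cast (card_filter_add_card_filter_not (s := T) (fun n => Free Z κ y n)).symm
    have h2 : C3 * Real.sqrt y ≤ c1 / 2 * (y * V) := by
      have h3 : C3 * Real.sqrt y ≤ c1 * cV / 2 * y / Real.log y ^ (2 * r) := by
        rw [le_div_iff₀ (by positivity)]
        exact hy1'
      refine h3.trans ?_
      calc c1 * cV / 2 * y / Real.log y ^ (2 * r) = c1 / 2 * (y * (cV / Real.log y ^ (2 * r))) := by ring
        _ ≤ c1 / 2 * (y * V) := by gcongr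
    linarith
  have hyV : 0 < (y : ℝ) * V := by positivity
  have hT'c : (0 : ℝ) < T'.card := lt_of_lt_of_le (by positivity) hcard
  have hne : T'.Nonempty := by
    rw [← card_pos]
    exact_mod_cast hT'c
  have hT'I : T' ⊆ Ioc 0 (0 + y) := by
    intro n hn
    have := mem_Icc.1 (hTy (hT'T hn))
    rw [mem_Ioc]
    omega
  have hfree : ∀ n ∈ T', ∀ q : ℕ, q.Prime → (q : ℝ) ≤ (y : ℝ) ^ κ → n % q ∉ Z q := by
    intro n hn
    rw [hT', mem_filter] at hn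
    exact hn.2
  obtain ⟨k, hk1', hk2, hk3⟩ := hsum y hyN 0 0 Z Z (fun q hq _ => hZ q hq) (fun q hq _ => hZ q hq) T' T' (T' + T')
    hT'I hT'I hfree hfree hne hne (fun m hm n hn => add_mem_add hm hn) (by
      intro x hx
      obtain ⟨a, ha, b, hb, rfl⟩ := mem_add.1 hx
      have := mem_Ioc.1 (hT'I ha)
      have := mem_Ioc.1 (hT'I hb)
      rw [mem_Ioc]
      omega)
  rw [← hY] at hk2 hk3
  rw [← hV] at hk2
  -- the parameter is bounded
  have hkk1 : k ≤ k1 := by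
    have h1 : (k : ℝ) * ((c1 / 2) ^ 8 * (y * V) ^ 8) ≤ C * (y * V) ^ 8 := by
      calc (k : ℝ) * ((c1 / 2) ^ 8 * (y * V) ^ 8) = k * ((c1 / 2 * (y * V)) * (c1 / 2 * (y * V))) ^ 4 := by ring
        _ ≤ k * ((T'.card : ℝ) * T'.card) ^ 4 := by gcongr
        _ ≤ C * ((y * V) * (y * V)) ^ 4 := hk2
        _ = _ := by ring
    have h2 : (k : ℝ) ≤ C / (c1 / 2) ^ 8 := by
      rw [le_div_iff₀ (by positivity)]
      have h3 : (y * V) ^ 8 * ((k : ℝ) * (c1 / 2) ^ 8) ≤ (y * V) ^ 8 * C := by linarith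
      exact le_of_mul_le_mul_left h3 (by positivity)
    exact_mod_cast h2.trans hk1
  have h5 : VV Z k Y ≤ V / c2 := by
    rw [le_div_iff₀ hc2]
    have h6 := hlow 0 k Z (hZ' 0 k) (hkk1.trans (le_max_left _ _))
    have h7 := VV_split Z (Nat.zero_le k) (by omega : k ≤ Y)
    have h8 : 0 < VV Z k Y := VV_nonneg fun p hp => (hZ' k Y p hp).2.1
    rw [hV, ← h7]
    nlinarith
  have h6 : ((T' + T').card : ℝ) ≤ (T + T).card := by
    exact_mod_cast card_le_card (add_subset_add hT'T hT'T)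
  have h7 : c1 / 2 * (y * V) ≤ C * (V / c2) * (T + T).card := by
    refine hcard.trans (hk3.trans ?_)
    gcongr
  have h8 : V * (c1 * c2 * y) ≤ V * (2 * C * (T + T).card) := by
    have e : C * (V / c2) * (T + T).card = V * (C * (T + T).card) / c2 := by ring
    rw [e, le_div_iff₀ hc2] at h7
    linarith
  have h9 := le_of_mul_le_mul_left h8 hV0
  rw [div_mul_eq_mul_div, div_le_iff₀ (by positivity)]
  linarith

end Pool.Agent.K7.H64.BQ
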