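import Mathlib

/-!
Growth of multiples of a dense set in a finite abelian group.
-/

set_option autoImplicit false

open Finset
open scoped Pointwise

namespace Pool.Agent.K7.H64.BQ

variable {G : Type*} [AddCommGroup G] [DecidableEq G]

theorem half (A : Finset G) (h0 : (0 : G) ∈ A) (h : 2 * (A + A).card < 3 * A.card) :
    ∃ H : AddSubgroup G, ∀ x, x ∈ H ↔ x ∈ A + A := by
  have hpos : 0 < A.card := card_pos.2 ⟨0, h0⟩
  -- two translates meet in more than half
  have hint : ∀ a ∈ A, ∀ b ∈ A, A.card < 2 * ((A.image (fun x => a + x)) ∩ (A.image (fun x => b + x))).card := by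
    intro a ha b hb
    have h1 : ((A.image (fun x => a + x)) ∪ (A.image (fun x => b + x))).card ≤ (A + A).card := by
      apply card_le_card
      intro x hx
      rw [mem_union, mem_image, mem_image] at hx
      rcases hx with ⟨y, hy, rfl⟩ | ⟨y, hy, rfl⟩
      · exact add_mem_add ha hy
      · exact add_mem_add hb hy
    have h2 := card_union_add_card_inter (A.image (fun x => a + x)) (A.image (fun x => b + x))
    rw [card_image_of_injective _ (add_right_injective a), card_image_of_injective _ (add_right_injective b)] at h2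
    omega
  -- the representations of a difference
  have hrep : ∀ u ∈ A - A, A.card < 2 * (A.filter (fun x => u + x ∈ A)).card := by
    intro u hu
    rw [mem_sub] at hu
    obtain ⟨a, ha, b, hb, rfl⟩ := hu
    refine lt_of_lt_of_le (hint a ha b hb) ?_
    apply Nat.mul_le_mul_left
    apply card_le_card_of_injOn (fun z => z - a)
    · intro z hz
      rw [mem_coe, mem_inter, mem_image, mem_image] at hz
      obtain ⟨⟨x, hx, hxz⟩, ⟨y, hy, hyz⟩⟩ := hz
      rw [mem_coe, mem_filter]
      have e1 : z - a = x := by rw [← hxz]; abel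
      have e2 : a - b + x = y := by
        have : a + x = b + y := hxz.trans hyz.symm
        have e3 : a - b + x = (a + x) - b := by abel
        rw [e3, this]
        abel
      change z - a ∈ A ∧ a - b + (z - a) ∈ A
      rw [e1, e2]
      exact ⟨hx, hy⟩
    · intro z _ w _ hzw
      exact sub_left_injective hzw
  have hneg : ∀ u ∈ A - A, -u ∈ A - A := by
    intro u hu
    rw [mem_sub] at hu ⊢
    obtain ⟨a, ha, b, hb, rfl⟩ := hu
    exact ⟨b, hb, a, ha, by abel⟩
  have hadd : ∀ u ∈ A - A, ∀ v ∈ A - A, u + v ∈ A - A := by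
    intro u hu v hv
    have h1 := hrep u hu
    have h2 := hrep v hv
    have h3 : ((A.filter (fun x => v + x ∈ A)).image (fun x => v + x)).card = (A.filter (fun x => v + x ∈ A)).card :=
      card_image_of_injective _ (add_right_injective v)
    have h4 : ((A.filter (fun x => u + x ∈ A)) ∪ ((A.filter (fun x => v + x ∈ A)).image (fun x => v + x))).card ≤ A.card := by
      apply card_le_card
      intro x hx
      rw [mem_union, mem_image] at hx
      rcases hx with hx | ⟨y, hy, rfl⟩
      · exact (mem_filter.1 hx).1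
      · exact (mem_filter.1 hy).2
    have h5 := card_union_add_card_inter (A.filter (fun x => u + x ∈ A))
      ((A.filter (fun x => v + x ∈ A)).image (fun x => v + x))
    rw [h3] at h5
    obtain ⟨x, hx⟩ : ((A.filter (fun x => u + x ∈ A)) ∩
        ((A.filter (fun x => v + x ∈ A)).image (fun x => v + x))).Nonempty := by
      rw [← card_pos]
      omega
    rw [mem_inter, mem_image] at hx
    obtain ⟨hx1, y, hy, rfl⟩ := hx
    rw [mem_filter] at hx1 hy
    rw [mem_sub]
    exact ⟨u + (v + y), hx1.2, y, hy.1, by abel⟩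
  have hzero : (0 : G) ∈ A - A := mem_sub.2 ⟨0, h0, 0, h0, sub_zero _⟩
  have hsub : A ⊆ A - A := fun x hx => mem_sub.2 ⟨x, hx, 0, h0, sub_zero _⟩
  -- the number of the differences
  have hcard : (A - A).card < 2 * A.card := by
    have h1 : ∑ u ∈ A - A, (A.filter (fun x => u + x ∈ A)).card = A.card * A.card := by
      rw [← card_product]
      have h2 := card_eq_sum_card_fiberwise (s := A ×ˢ A) (t := A - A) (f := fun q : G × G => q.1 - q.2)
        (fun q hq => by
          rw [mem_coe, mem_product] at hq
          exact sub_mem_sub hq.1 hq.2)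
      rw [h2]
      refine sum_congr rfl fun u _ => ?_
      apply card_bij (fun x _ => (u + x, x))
      · intro x hx
        rw [mem_filter] at hx
        rw [mem_filter, mem_product]
        exact ⟨⟨hx.2, hx.1⟩, by simp⟩
      · intro x _ y _ hxy
        exact congrArg Prod.snd hxy
      · rintro ⟨x, y⟩ hq
        rw [mem_filter, mem_product] at hq
        obtain ⟨⟨hx, hy⟩, hxy⟩ := hq
        simp only at hx hy hxy
        refine ⟨y, ?_, ?_⟩
        · rw [mem_filter, ← hxy, sub_add_cancel]
          exact ⟨hy, hx⟩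
        · rw [← hxy, sub_add_cancel]
    have h3 : (A - A).card * (A.card + 1) ≤ 2 * (A.card * A.card) := by
      rw [← h1, mul_sum, ← smul_eq_mul, ← sum_const]
      apply sum_le_sum
      intro u hu
      have := hrep u hu
      omega
    by_contra hcon
    push Not at hcon
    have : 2 * A.card * (A.card + 1) ≤ 2 * (A.card * A.card) :=
      (Nat.mul_le_mul_right _ hcon).trans h3
    nlinarith
  refine ⟨⟨⟨⟨(A - A : Finset G), fun {a b} ha hb => hadd a ha b hb⟩, hzero⟩, fun {a} ha => hneg a ha⟩, ?_⟩
  intro x
  change x ∈ ((A - A : Finset G) : Set G) ↔ _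
  rw [mem_coe]
  constructor
  · intro hx
    have h1 : (A ∪ A.image (fun a => x - a)).card ≤ (A - A).card := by
      apply card_le_card
      intro y hy
      rw [mem_union, mem_image] at hy
      rcases hy with hy | ⟨a, ha, rfl⟩
      · exact hsub hy
      · rw [sub_eq_add_neg x a]
        exact hadd x hx _ (hneg a (hsub ha))
    have h2 := card_union_add_card_inter A (A.image (fun a => x - a))
    rw [card_image_of_injective _ (sub_right_injective (b := x))] at h2
    obtain ⟨y, hy⟩ : (A ∩ A.image (fun a => x - a)).Nonempty := by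
      rw [← card_pos]
      omega
    rw [mem_inter, mem_image] at hy
    obtain ⟨hy1, a, ha, hya⟩ := hy
    rw [mem_add]
    exact ⟨y, hy1, a, ha, by rw [← hya]; abel⟩
  · intro hx
    rw [mem_add] at hx
    obtain ⟨a, ha, b, hb, rfl⟩ := hx
    exact hadd a (hsub ha) b (hsub hb)

/-- the iterated doubling of a set which contains `0` -/
def dbl (A : Finset G) : ℕ → Finset G
  | 0 => A
  | j + 1 => dbl A j + dbl A j

theorem dbl_zero_mem {A : Finset G} (h0 : (0 : G) ∈ A) (j : ℕ) : (0 : G) ∈ dbl A j := by
  induction j with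
  | zero => exact h0
  | succ j ih => exact mem_add.2 ⟨0, ih, 0, ih, add_zero _⟩

theorem dbl_mono {A : Finset G} (h0 : (0 : G) ∈ A) {i j : ℕ} (hij : i ≤ j) : dbl A i ⊆ dbl A j := by
  induction j, hij using Nat.le_induction with
  | base => exact Subset.refl _
  | succ j _ ih =>
    refine ih.trans fun x hx => ?_
    exact mem_add.2 ⟨x, hx, 0, dbl_zero_mem h0 j, add_zero _⟩

theorem dbl_sub {A : Finset G} (H : AddSubgroup G) (h : ∀ x ∈ A, x ∈ H) (j : ℕ) : ∀ x ∈ dbl A j, x ∈ H := by
  induction j with
  | zero => exact h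
  | succ j ih =>
    intro x hx
    obtain ⟨a, ha, b, hb, rfl⟩ := mem_add.1 hx
    exact H.add_mem (ih a ha) (ih b hb)

/-- **a dense set generates its subgroup in few steps** -/
theorem dense_gen [Fintype G] (A : Finset G) (h0 : (0 : G) ∈ A) (J : ℕ)
    (hJ : (Fintype.card G : ℝ) < (3 / 2 : ℝ) ^ J * A.card) :
    ∃ H : AddSubgroup G, ∀ x, x ∈ H ↔ x ∈ dbl A J := by
  -- some step has small growth
  obtain ⟨i, hi, hsm⟩ : ∃ i < J, 2 * (dbl A (i + 1)).card < 3 * (dbl A i).card := by
    by_contra hcon
    push Not at hcon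
    have h1 : ∀ j ≤ J, (3 / 2 : ℝ) ^ j * A.card ≤ (dbl A j).card := by
      intro j
      induction j with
      | zero => intro _; simp [dbl]
      | succ j ih =>
        intro hj
        have h2 := ih (by omega)
        have h3 : (3 : ℝ) * (dbl A j).card ≤ 2 * (dbl A (j + 1)).card := by exact_mod_cast hcon j (by omega)
        rw [pow_succ]
        linarith
    have h2 := h1 J le_rfl
    have h3 : ((dbl A J).card : ℝ) ≤ Fintype.card G := by exact_mod_cast card_le_univ _
    linarith
  obtain ⟨H, hH⟩ := half (dbl A i) (dbl_zero_mem h0 i) hsm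
  refine ⟨H, fun x => ⟨fun hx => ?_, fun hx => ?_⟩⟩
  · exact dbl_mono h0 (show i + 1 ≤ J by omega) ((hH x).1 hx)
  · refine dbl_sub H (fun a ha => ?_) J x hx
    exact (hH a).2 (dbl_mono (j := i + 1) h0 (Nat.zero_le _) ha)

/-- an element of the iterated doubling is a sum of `2 ^ j` elements -/
theorem dbl_multi {A : Finset G} (j : ℕ) : ∀ x ∈ dbl A j, ∃ s : Multiset G, Multiset.card s = 2 ^ j ∧
    (∀ y ∈ s, y ∈ A) ∧ s.sum = x := by
  induction j with
  | zero =>
    intro x hx
    exact ⟨{x}, by simp, fun y hy => by rw [Multiset.mem_singleton.1 hy]; exact hx, by simp⟩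
  | succ j ih =>
    intro x hx
    obtain ⟨a, ha, b, hb, rfl⟩ := mem_add.1 hx
    obtain ⟨s, hs1, hs2, hs3⟩ := ih a ha
    obtain ⟨t, ht1, ht2, ht3⟩ := ih b hb
    refine ⟨s + t, by rw [Multiset.card_add, hs1, ht1]; ring, fun y hy => ?_, by rw [Multiset.sum_add, hs3, ht3]⟩
    rcases Multiset.mem_add.1 hy with h | h
    · exact hs2 y h
    · exact ht2 y h

theorem dbl_dbl (A : Finset G) (j : ℕ) : dbl (A + A) j = dbl A (j + 1) := by
  induction j with
  | zero => rfl
  | succ j ih =>
    change dbl (A + A) j + dbl (A + A) j = dbl A (j + 1) + dbl A (j + 1)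
    rw [ih]

end Pool.Agent.K7.H64.BQ
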