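import Pool.Agent.K7.H64.BQ.PairV
import Pool.Agent.R460.GQ.Conv
import Pool.Agent.W93.GB1

/-!
Primes `p` with `p + d` prime form a basis, for almost all differences.
-/

set_option autoImplicit false

open Finset MeasureTheory
open scoped Pointwise

namespace Pool.Agent.K7.H64.BQ

open Pool.Agent.Y843.HS
open Pool.Agent.K7.H64.LS
open Pool.Agent.R460.GQ (pairs main Holds exceptional gq_real)

theorem Li_low {y : ℝ} (hy : 2 ≤ y) : (y - 2) / Real.log y ^ 2 ≤ ∫ t in (2 : ℝ)..y, 1 / Real.log t ^ 2 := by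
  have h1 : ∫ _t in (2 : ℝ)..y, 1 / Real.log y ^ 2 = (y - 2) / Real.log y ^ 2 := by
    rw [intervalIntegral.integral_const, smul_eq_mul]
    ring
  rw [← h1]
  apply intervalIntegral.integral_mono_on hy
  · exact intervalIntegrable_const
  · apply ContinuousOn.intervalIntegrable
    intro t ht
    rw [Set.uIcc_of_le hy] at ht
    have h2 : 0 < Real.log t := Real.log_pos (by linarith [ht.1])
    apply ContinuousWithinAt.div continuousWithinAt_const
    · exact ((Real.continuousAt_log (by linarith [ht.1])).pow 2).continuousWithinAt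
    · positivity
  · intro t ht
    have h2 : 0 < Real.log t := Real.log_pos (by linarith [ht.1])
    have h3 : Real.log t ≤ Real.log y := Real.log_le_log (by linarith [ht.1]) ht.2
    apply one_div_le_one_div_of_le (by positivity)
    exact pow_le_pow_left₀ h2.le h3 2

open Classical in
/-- the primes `p` with `p + d ≤ y` prime -/
noncomputable def TT (d y : ℕ) : Finset ℕ := (Icc 1 y).filter (fun p => p.Prime ∧ (p + d).Prime ∧ p + d ≤ y)

theorem TT_mono (d : ℕ) {y y' : ℕ} (h : y ≤ y') : TT d y ⊆ TT d y' := by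
  intro p hp
  unfold TT at hp ⊢
  rw [mem_filter, mem_Icc] at hp ⊢
  exact ⟨⟨hp.1.1, by omega⟩, hp.2.1, hp.2.2.1, by omega⟩

theorem pairs_le (d y a q : ℕ) : pairs d (y : ℝ) a q = ((TT d y).filter (fun p => p ≡ a [MOD q])).card := by
  classical
  unfold pairs TT
  congr 1
  ext p
  rw [mem_filter, mem_filter, mem_filter, mem_range, mem_Icc, Nat.floor_natCast]
  constructor
  · rintro ⟨h1, h2, h3, h4, h5⟩
    exact ⟨⟨⟨h2.pos, by omega⟩, h2, h3, by exact_mod_cast h4⟩, h5⟩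
  · rintro ⟨⟨⟨h1, h1'⟩, h2, h3, h4⟩, h5⟩
    exact ⟨by omega, h2, h3, by exact_mod_cast h4, h5⟩

/-- the lower bound for the number of pairs in a class -/
theorem pairs_low {A B : ℕ} {x : ℝ} {d : ℕ} (h : Holds B (A + 5) x d) {q a : ℕ} (hq : 1 ≤ q)
    (hqB : (q : ℝ) ≤ Real.log x ^ B) (h1 : Nat.Coprime a q) (h2 : Nat.Coprime (a + d) q) {y : ℕ} (hy4 : 4 ≤ y)
    (hyx : (y : ℝ) ≤ x) (hy : x / Real.log x ^ (A + 1) ≤ y) (hL : 4 * q ≤ Real.log x ^ 2) (hL1 : 1 ≤ Real.log x) :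
    1 / (4 * q) * (Sd d * (y / Real.log x ^ 2)) ≤ (pairs d (y : ℝ) a q : ℝ) := by
  classical
  have hyr : (4 : ℝ) ≤ y := by exact_mod_cast hy4
  have hq0 : (0 : ℝ) < q := by exact_mod_cast hq
  have h3 := abs_le.1 (h q a hq hqB h1 h2 y (by linarith) hyx)
  have hC2 : (1 : ℝ) / 2 ≤ Pool.Agent.H560R3.GB.C₂ := Pool.Agent.W93.GB.C2_half
  have hS := one_le_Sd d
  obtain ⟨L, hLd⟩ : ∃ L, L = Real.log x := ⟨_, rfl⟩
  rw [← hLd] at hy hL hL1 h3 ⊢
  have hL0 : 0 < L := by linarith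
  have hly : 0 < Real.log y := Real.log_pos (by linarith)
  have hlyL : Real.log y ≤ L := by rw [hLd]; exact Real.log_le_log (by linarith) hyx
  -- the main term
  have hI : (y : ℝ) / (2 * L ^ 2) ≤ ∫ t in (2 : ℝ)..y, 1 / Real.log t ^ 2 := by
    refine le_trans ?_ (Li_low (by linarith : (2 : ℝ) ≤ y))
    rw [div_le_div_iff₀ (by positivity) (by positivity)]
    have h4 : Real.log y ^ 2 ≤ L ^ 2 := pow_le_pow_left₀ hly.le hlyL 2
    calc (y : ℝ) * Real.log y ^ 2 ≤ (y : ℝ) * L ^ 2 := mul_le_mul_of_nonneg_left h4 (by linarith)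
      _ ≤ (y - 2) * (2 * L ^ 2) := by
          have : 0 ≤ L ^ 2 := by positivity
          nlinarith
  have hI0 : 0 ≤ (y : ℝ) / (2 * L ^ 2) := by positivity
  obtain ⟨k, hk⟩ : ∃ k : ℕ, k = ((range q).filter (fun α => Nat.Coprime α q ∧ Nat.Coprime (α + d) q)).card := ⟨_, rfl⟩
  have hkq : k ≤ q := by
    rw [hk]
    exact (card_filter_le _ _).trans (by rw [card_range])
  have hk0 : 0 < k := by
    rw [hk]
    apply card_pos.2
    refine ⟨a % q, mem_filter.2 ⟨mem_range.2 (Nat.mod_lt _ hq), ?_, ?_⟩⟩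
    · rw [Nat.coprime_iff_gcd_eq_one] at h1 ⊢
      rw [← h1]
      exact ((Nat.mod_modEq a q).gcd_eq)
    · rw [Nat.coprime_iff_gcd_eq_one] at h2 ⊢
      rw [← h2]
      exact (((Nat.mod_modEq a q).add_right d).gcd_eq)
  have hkr : (0 : ℝ) < k := by exact_mod_cast hk0
  have hkqr : (k : ℝ) ≤ q := by exact_mod_cast hkq
  have hmain : 1 / q * (Sd d * (y / (2 * L ^ 2))) ≤ main d y q := by
    unfold main
    rw [← hk]
    have e : (∏ p ∈ d.primeFactors.filter (fun p => 2 < p), ((p : ℝ) - 1) / ((p : ℝ) - 2)) = Sd d := rfl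
    rw [e]
    calc 1 / (q : ℝ) * (Sd d * (y / (2 * L ^ 2))) = 2 / q * Sd d * (1 / 2) * (y / (2 * L ^ 2)) := by ring
      _ ≤ 2 / k * Sd d * Pool.Agent.H560R3.GB.C₂ * ∫ t in (2 : ℝ)..y, 1 / Real.log t ^ 2 := by
          have hSd0 : 0 ≤ Sd d := by linarith
          have e1 : 2 / (q : ℝ) ≤ 2 / k := div_le_div_of_nonneg_left (by norm_num) hkr hkqr
          have e2 : 2 / (q : ℝ) * Sd d ≤ 2 / k * Sd d := mul_le_mul_of_nonneg_right e1 hSd0
          have e3 : 2 / (q : ℝ) * Sd d * (1 / 2) ≤ 2 / k * Sd d * Pool.Agent.H560R3.GB.C₂ :=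
            mul_le_mul e2 hC2 (by norm_num) (by positivity)
          exact mul_le_mul e3 hI hI0 (by positivity)
  -- the error term
  have herr : x / L ^ (A + 5) ≤ y / L ^ 4 := by
    have e : x / L ^ (A + 5) = x / L ^ (A + 1) / L ^ 4 := by
      rw [div_div, ← pow_add]
    rw [e]
    exact div_le_div_of_nonneg_right hy (by positivity)
  have herr2 : (y : ℝ) / L ^ 4 ≤ 1 / (4 * q) * (Sd d * (y / L ^ 2)) := by
    have e1 : (y : ℝ) / L ^ 4 = (y / L ^ 2) * (1 / L ^ 2) := by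
      field_simp
    have e2 : 1 / L ^ 2 ≤ 1 / (4 * q) := one_div_le_one_div_of_le (by positivity) hL
    rw [e1]
    calc (y / L ^ 2) * (1 / L ^ 2) ≤ (y / L ^ 2) * (1 / (4 * q)) := mul_le_mul_of_nonneg_left e2 (by positivity)
      _ = 1 / (4 * q) * (1 * (y / L ^ 2)) := by ring
      _ ≤ 1 / (4 * q) * (Sd d * (y / L ^ 2)) := by gcongr
  have e3 : 1 / q * (Sd d * (y / (2 * L ^ 2))) = 2 * (1 / (4 * q) * (Sd d * (y / L ^ 2))) := by
    field_simp
    ring
  linarith [h3.1]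

end Pool.Agent.K7.H64.BQ
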