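import Pool.Agent.K7.H64.BQ.PairB
import Pool.Agent.Y614.GJ.Core

/-!
Primes `p` with `p + d` prime form a basis, for almost all differences: the theorem.
-/

set_option autoImplicit false

open Finset MeasureTheory
open scoped Pointwise

namespace Pool.Agent.K7.H64.BQ

open Pool.Agent.Y843.HS
open Pool.Agent.K7.H64.LS
open Pool.Agent.R460.GQ (pairs main Holds exceptional gq_real)
open Pool.Agent.Y614.GJ.Core (ev_log)

theorem two_classes {d q : ℕ} (hd : Even d) (hq : q = 4 ∨ q = 9 ∨ (q.Prime ∧ 5 ≤ q)) :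
    ∃ a b : ℕ, Nat.Coprime a q ∧ Nat.Coprime (a + d) q ∧ Nat.Coprime b q ∧ Nat.Coprime (b + d) q ∧
      ¬ a ≡ b [MOD q] := by
  rcases hq with rfl | rfl | ⟨hp, h5⟩
  · have key : ∀ a : ℕ, Odd a → Nat.Coprime a 4 := by
      intro a ha
      have : Nat.Coprime a (2 ^ 2) := Nat.Coprime.pow_right 2 (Nat.coprime_two_right.2 ha)
      simpa using this
    exact ⟨1, 3, key 1 (by decide), key _ (odd_one.add_even hd), key 3 (by decide),
      key _ (Odd.add_even (by decide) hd), by decide⟩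
  · have key : ∀ a : ℕ, ¬ 3 ∣ a → Nat.Coprime a 9 := by
      intro a ha
      have : Nat.Coprime a (3 ^ 2) := Nat.Coprime.pow_right 2
        (Nat.Coprime.symm ((Nat.Prime.coprime_iff_not_dvd Nat.prime_three).2 ha))
      simpa using this
    by_cases h : 3 ∣ 1 + d
    · exact ⟨2, 5, key 2 (by decide), key _ (by omega), key 5 (by decide), key _ (by omega), by decide⟩
    · exact ⟨1, 4, key 1 (by decide), key _ h, key 4 (by decide), key _ (by omega), by decide⟩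
  · have key : ∀ a : ℕ, ¬ q ∣ a → Nat.Coprime a q := fun a ha =>
      Nat.Coprime.symm ((Nat.Prime.coprime_iff_not_dvd hp).2 ha)
    have k1 : ¬ q ∣ 1 := fun h => by have := Nat.le_of_dvd (by norm_num) h; omega
    have k2 : ¬ q ∣ 2 := fun h => by have := Nat.le_of_dvd (by norm_num) h; omega
    have k3 : ¬ q ∣ 3 := fun h => by have := Nat.le_of_dvd (by norm_num) h; omega
    have m12 : ¬ 1 ≡ 2 [MOD q] := fun h => k1 (by
      have := (Nat.modEq_iff_dvd' (by norm_num : 1 ≤ 2)).1 h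
      simpa using this)
    have m23 : ¬ 2 ≡ 3 [MOD q] := fun h => k1 (by
      have := (Nat.modEq_iff_dvd' (by norm_num : 2 ≤ 3)).1 h
      simpa using this)
    have m13 : ¬ 1 ≡ 3 [MOD q] := fun h => k2 (by
      have := (Nat.modEq_iff_dvd' (by norm_num : 1 ≤ 3)).1 h
      simpa using this)
    by_cases h1 : q ∣ 1 + d
    · have h2 : ¬ q ∣ 2 + d := fun h => k1 (by
        have := Nat.dvd_sub h h1
        have e : 2 + d - (1 + d) = 1 := by omega
        rwa [e] at this)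
      have h3 : ¬ q ∣ 3 + d := fun h => k2 (by
        have := Nat.dvd_sub h h1
        have e : 3 + d - (1 + d) = 2 := by omega
        rwa [e] at this)
      exact ⟨2, 3, key 2 k2, key _ h2, key 3 k3, key _ h3, m23⟩
    · by_cases h2 : q ∣ 2 + d
      · have h3 : ¬ q ∣ 3 + d := fun h => k1 (by
          have := Nat.dvd_sub h h2
          have e : 3 + d - (2 + d) = 1 := by omega
          rwa [e] at this)
        exact ⟨1, 3, key 1 k1, key _ h1, key 3 k3, key _ h3, m13⟩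
      · exact ⟨1, 2, key 1 k1, key _ h1, key 2 k2, key _ h2, m12⟩

set_option maxHeartbeats 4000000 in
theorem basis_of_holds : ∃ k0 : ℕ, ∀ k : ℕ, k0 ≤ k → ∀ A : ℕ, ∃ x₀ : ℕ, ∀ x : ℕ, x₀ ≤ x →
    ∀ d : ℕ, 0 < d → Even d → Holds 1 (A + 6) x d →
    ∀ n : ℕ, n ≡ k [MOD 2] → (3 ∣ d ∨ n ≡ k * d [MOD 3]) → x / Real.log x ^ A ≤ n → n ≤ x →
    ∃ m : Multiset ℕ, Multiset.card m = k ∧ (∀ p ∈ m, p.Prime ∧ (p + d).Prime) ∧ m.sum = n := by
  classical
  obtain ⟨CV, hCV, hVV⟩ := VV_pairs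
  obtain ⟨C3, hC3, hexc⟩ := few_exc_uni (ι := Fin 2) 2 (1 / 2)
  rw [min_self] at hexc
  obtain ⟨δ, hδ, y0, hfull⟩ := full 2 (κ := 1 / 2) (by norm_num) (by norm_num) (c1 := 1 / (64 * CV)) (by positivity) C3
  obtain ⟨k0, K, G0, hK, hrep⟩ := represent hδ
  refine ⟨k0 + 1, fun k hkk A => ?_⟩
  have hk : 0 < k := by omega
  obtain ⟨x₂, h2⟩ := Filter.eventually_atTop.1 (ev_log (A + 1) (s := 1 / 4) (by norm_num)
    (4 * K * (k + 1) + 4 * G0 + 4 / δ + y0 + 100))
  refine ⟨x₂ + 3, fun x hx => ?_⟩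
  obtain ⟨hLb, hLp⟩ := h2 x (by omega)
  have hx1 : 1 ≤ x := by omega
  have hx1r : (1 : ℝ) ≤ x := by exact_mod_cast hx1
  have hx0 : (0 : ℝ) < x := by linarith
  intro d hd hdev hHolds n hn2 hn3 hnx hnx'
  obtain ⟨L, hL⟩ : ∃ L, L = Real.log (x : ℝ) := ⟨_, rfl⟩
  have hHolds : Holds 1 ((A + 1) + 5) x d := hHolds
  have pk : (0 : ℝ) < k := by exact_mod_cast hk
  have pK : (0 : ℝ) < K := by exact_mod_cast hK
  have pG : (0 : ℝ) ≤ G0 := Nat.cast_nonneg _
  have py : (0 : ℝ) ≤ y0 := Nat.cast_nonneg _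
  have pd : 0 < 4 / δ := by positivity
  have pKk : 0 < 4 * (K : ℝ) * (k + 1) := by positivity
  rw [← hL] at hLb hLp hnx
  have hL100 : 100 ≤ L := by linarith
  have hL0 : 0 < L := by linarith
  have hL1 : 1 ≤ L := by linarith
  have hLA1 : 1 ≤ L ^ (A + 1) := one_le_pow₀ hL1
  have hxq0 : 0 < (x : ℝ) ^ (1 / 4 : ℝ) := Real.rpow_pos_of_pos hx0 _
  have hLx : L ≤ (x : ℝ) ^ (1 / 4 : ℝ) := (le_self_pow₀ hL1 (by omega)).trans hLp
  -- powers of x
  have hx34 : (x : ℝ) ^ (3 / 4 : ℝ) ≤ x / L ^ (A + 1) := by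
    rw [le_div_iff₀ (by positivity)]
    calc (x : ℝ) ^ (3 / 4 : ℝ) * L ^ (A + 1) ≤ (x : ℝ) ^ (3 / 4 : ℝ) * (x : ℝ) ^ (1 / 4 : ℝ) := by gcongr
      _ = x := by
          rw [← Real.rpow_add hx0]
          norm_num
  have hLx34 : L ≤ (x : ℝ) ^ (3 / 4 : ℝ) := hLx.trans (Real.rpow_le_rpow_of_exponent_le hx1r (by norm_num))
  obtain ⟨u, hu⟩ : ∃ u : ℝ, u = x / L ^ (A + 1 + 1) := ⟨_, rfl⟩
  -- the parameter y
  obtain ⟨y, hy⟩ : ∃ y : ℕ, y = n / K := ⟨_, rfl⟩
  have hyK : K * y ≤ n := by rw [hy]; exact Nat.mul_div_le n K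
  have hyK2 : n < K * y + K := by
    rw [hy]
    have e1 := Nat.div_add_mod n K
    have e2 := Nat.mod_lt n hK
    omega
  obtain ⟨w, hw⟩ : ∃ w : ℝ, w = x / L ^ (A + 1) := ⟨_, rfl⟩
  have hw34 : (x : ℝ) ^ (3 / 4 : ℝ) ≤ w := by rw [hw]; exact hx34
  have hwL : L ≤ w := hLx34.trans hw34
  have hnw : L * w ≤ n := by
    have e : L * w = x / L ^ A := by
      rw [hw, pow_succ]
      field_simp
    rw [e]
    exact hnx
  have hylow : 2 * (k + 1) * w ≤ y := by
    have h3 : (n : ℝ) < K * y + K := by exact_mod_cast hyK2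
    have h4 : 4 * (K : ℝ) * (k + 1) * w ≤ L * w := by
      apply mul_le_mul_of_nonneg_right _ (by linarith)
      linarith
    have h5 : K * (2 * (k + 1) * w) + K * (2 * (k + 1) * w) ≤ K * y + K := by linarith
    have h6 : (K : ℝ) ≤ K * (2 * (k + 1) * w) := by
      have : 1 ≤ 2 * ((k : ℝ) + 1) * w := by nlinarith
      nlinarith
    have h7 : K * (2 * (k + 1) * w) ≤ K * (y : ℝ) := by linarith
    exact le_of_mul_le_mul_left h7 pK
  have hw0 : 0 < w := by linarith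
  have hyw : w ≤ y := by
    have : w ≤ 2 * ((k : ℝ) + 1) * w := by nlinarith
    linarith
  have hyx : y ≤ x := by
    have h3 : y ≤ n := by
      rw [hy]
      exact Nat.div_le_self _ _
    omega
  have hyxr : (y : ℝ) ≤ x := by exact_mod_cast hyx
  -- the small scale
  obtain ⟨y', hy'⟩ : ∃ y' : ℕ, y' = y / k := ⟨_, rfl⟩
  have hy'w : w ≤ y' := by
    have h3 : (y : ℝ) < k * y' + k := by
      have : y < k * (y / k) + k := by
        have e1 := Nat.div_add_mod y k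
        have e2 := Nat.mod_lt y hk
        omega
      rw [← hy'] at this
      exact_mod_cast this
    have h4 : 2 * (k : ℝ) * w ≤ 2 * (k + 1) * w := by nlinarith
    have h5 : (k : ℝ) ≤ k * w := by
      have : 1 ≤ w := by linarith
      nlinarith
    have h6 : k * w ≤ k * (y' : ℝ) := by linarith
    exact le_of_mul_le_mul_left h6 pk
  have hy'y : y' ≤ y := by rw [hy']; exact Nat.div_le_self _ _
  have h4y' : 4 ≤ y' := by
    have : (4 : ℝ) ≤ y' := by linarith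
    exact_mod_cast this
  have h4y : 4 ≤ y := h4y'.trans hy'y
  have hLsq : ∀ q : ℕ, q ≤ G0 + 9 → 4 * (q : ℝ) ≤ L ^ 2 := by
    intro q hq
    have h3 : (q : ℝ) ≤ G0 + 9 := by exact_mod_cast hq
    nlinarith
  have hwle : (x : ℝ) / Real.log x ^ (A + 1 + 1) ≤ w := by
    rw [← hL, hw]
    apply div_le_div_of_nonneg_left hx0.le (by positivity)
    rw [pow_succ L (A + 1)]
    nlinarith
  have hpl : ∀ q a : ℕ, 1 ≤ q → q ≤ G0 + 9 → Nat.Coprime a q → Nat.Coprime (a + d) q → ∀ v : ℕ, 4 ≤ v → v ≤ x →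
      w ≤ v → 1 / (4 * (q : ℝ)) * (Sd d * (v / L ^ 2)) ≤ (pairs d (v : ℝ) a q : ℝ) := by
    intro q a hq hqG ha had v hv4 hvx hvw
    have h3 := pairs_low hHolds hq (by
      rw [pow_one, ← hL]
      have h3 : (q : ℝ) ≤ G0 + 9 := by exact_mod_cast hqG
      linarith) ha had hv4 (by exact_mod_cast hvx) (hwle.trans hvw) (by rw [← hL]; exact hLsq q hqG) (by rw [← hL]; exact hL1)
    rw [← hL] at h3
    exact h3
  have hSd := one_le_Sd d
  -- the number of the elements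
  have hT : 1 / 4 * (Sd d * (y / L ^ 2)) ≤ (TT d y).card := by
    have h3 := hpl 1 1 le_rfl (by omega) (by simp) (by simp) y h4y hyx hyw
    rw [pairs_le] at h3
    have h4 : (((TT d y).filter (fun p => p ≡ 1 [MOD 1])).card : ℝ) ≤ (TT d y).card := by
      exact_mod_cast card_filter_le _ _
    refine le_trans (le_of_eq ?_) (h3.trans h4)
    norm_num
  -- the sieve product
  obtain ⟨Y, hY⟩ : ∃ Y : ℕ, Y = ⌊(y : ℝ) ^ (1 / 2 : ℝ)⌋₊ := ⟨_, rfl⟩
  have hYlow : (x : ℝ) ^ (1 / 4 : ℝ) ≤ Y := by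
    have h3 : (x : ℝ) ^ (3 / 8 : ℝ) ≤ (y : ℝ) ^ (1 / 2 : ℝ) := by
      calc (x : ℝ) ^ (3 / 8 : ℝ) = ((x : ℝ) ^ (3 / 4 : ℝ)) ^ (1 / 2 : ℝ) := by
            rw [← Real.rpow_mul hx0.le]
            norm_num
        _ ≤ (y : ℝ) ^ (1 / 2 : ℝ) := Real.rpow_le_rpow (by positivity) (hw34.trans hyw) (by norm_num)
    have h4 : (y : ℝ) ^ (1 / 2 : ℝ) < Y + 1 := by rw [hY]; exact Nat.lt_floor_add_one _
    have h5 : (x : ℝ) ^ (3 / 8 : ℝ) = (x : ℝ) ^ (1 / 4 : ℝ) * (x : ℝ) ^ (1 / 8 : ℝ) := by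
      rw [← Real.rpow_add hx0]
      norm_num
    have h6 : (2 : ℝ) ≤ (x : ℝ) ^ (1 / 8 : ℝ) := by
      have h7 : ((x : ℝ) ^ (1 / 8 : ℝ)) ^ 2 = (x : ℝ) ^ (1 / 4 : ℝ) := by
        rw [← Real.rpow_natCast, ← Real.rpow_mul hx0.le]
        norm_num
      have h8 : 0 ≤ (x : ℝ) ^ (1 / 8 : ℝ) := by positivity
      by_contra hcon
      push Not at hcon
      nlinarith
    nlinarith
  have hY3 : 3 ≤ Y := by
    have : (3 : ℝ) ≤ Y := by linarith
    exact_mod_cast this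
  have hlY : L / 4 ≤ Real.log Y := by
    have h3 := Real.log_le_log hxq0 hYlow
    rw [Real.log_rpow hx0, ← hL] at h3
    linarith
  have hV : 1 / (64 * CV) * (y * VV (ZS (fd d)) 0 Y) ≤ (TT d y).card := by
    refine le_trans ?_ hT
    have h3 := hVV d hd Y hY3
    have h4 : CV * Sd d / Real.log Y ^ 2 ≤ 16 * CV * Sd d / L ^ 2 := by
      rw [div_le_div_iff₀ (by have : 0 < Real.log Y := by linarith
                              positivity) (by positivity)]
      have h5 : (L / 4) ^ 2 ≤ Real.log Y ^ 2 := pow_le_pow_left₀ (by positivity) hlY 2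
      have h6 : 0 ≤ CV * Sd d := by positivity
      nlinarith
    calc 1 / (64 * CV) * (y * VV (ZS (fd d)) 0 Y) ≤ 1 / (64 * CV) * (y * (16 * CV * Sd d / L ^ 2)) := by
          apply mul_le_mul_of_nonneg_left _ (by positivity)
          exact mul_le_mul_of_nonneg_left (h3.trans h4) (Nat.cast_nonneg _)
      _ = 1 / 4 * (Sd d * (y / L ^ 2)) := by
          field_simp
          ring
  -- the sumset
  have hadm : Adm (fd d) 2 := fd_adm hdev
  have hTI : TT d y ⊆ Icc 1 y := filter_subset _ _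
  have hsum := hfull y (by
      have : (y0 : ℝ) ≤ y := by linarith
      exact_mod_cast this) (ZS (fd d)) (fun q hq => ZS_uni hadm hq) (TT d y) hTI (by
      have h3 := hexc (fd d) hadm y (by omega) (TT d y) (fun p hp => by
        right
        unfold TT at hp
        rw [mem_filter] at hp
        intro i
        fin_cases i
        · change ((fd d 0).eval (p : ℤ)).natAbs.Prime
          rw [(fd_eval d p).1, Int.natAbs_natCast]
          exact hp.2.1
        · change ((fd d 1).eval (p : ℤ)).natAbs.Prime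
          rw [(fd_eval d p).2]
          have e : ((p : ℤ) + d).natAbs = p + d := by
            rw [← Nat.cast_add, Int.natAbs_natCast]
          rw [e]
          exact hp.2.2.1)
      refine le_trans ?_ h3
      have h4 : (TT d y).filter (fun n => ¬ Free (ZS (fd d)) (1 / 2) y n) ⊆
          (TT d y).filter (fun n => ¬ Rough (fd d) (1 / 2) y n) := by
        intro p hp
        rw [mem_filter] at hp ⊢
        refine ⟨hp.1, fun hr => hp.2 ?_⟩
        intro q hq hqy hmem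
        rw [ZS_mem _ hq.pos] at hmem
        have := hr q hq hmem
        linarith
      exact_mod_cast card_le_card h4) (by rw [← hY]; exact hV)
  have hne : ∀ q a : ℕ, 1 ≤ q → q ≤ G0 + 9 → Nat.Coprime a q → Nat.Coprime (a + d) q →
      ∃ s ∈ TT d y, s ≡ a [MOD q] := by
    intro q a hq1 hqG ha had
    have h3 := hpl q a hq1 hqG ha had y h4y hyx hyw
    rw [pairs_le] at h3
    have hq0 : (0 : ℝ) < q := by exact_mod_cast hq1
    have hy0 : (0 : ℝ) < y := by exact_mod_cast (by omega : 0 < y)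
    have h4 : 0 < 1 / (4 * (q : ℝ)) * (Sd d * (y / L ^ 2)) := by positivity
    have h5 : 0 < ((TT d y).filter (fun p => p ≡ a [MOD q])).card := by
      exact_mod_cast lt_of_lt_of_le h4 h3
    obtain ⟨s, hs⟩ := card_pos.1 h5
    rw [mem_filter] at hs
    exact ⟨s, hs.1, hs.2⟩
  -- the residue classes
  have hmix : ∀ q ≤ G0, (q = 4 ∨ q = 9 ∨ (q.Prime ∧ 5 ≤ q)) → ∃ s ∈ TT d y, ∃ t ∈ TT d y, ¬ s ≡ t [MOD q] := by
    intro q hqG hq
    obtain ⟨a, b, ha, had, hb, hbd, hab⟩ := two_classes hdev hq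
    have hq1 : 1 ≤ q := by
      rcases hq with rfl | rfl | ⟨hp, h5⟩
      · norm_num
      · norm_num
      · omega
    obtain ⟨s, hs, hsa⟩ := hne q a hq1 (by omega) ha had
    obtain ⟨t, ht, htb⟩ := hne q b hq1 (by omega) hb hbd
    exact ⟨s, hs, t, ht, fun hst => hab ((hsa.symm.trans hst).trans htb)⟩
  have hloc : ∀ q, (q = 2 ∨ q = 3) → (∃ s ∈ TT d y, ∃ t ∈ TT d y, ¬ s ≡ t [MOD q]) ∨
      ∃ t ∈ TT d y, k * t ≡ n [MOD q] := by
    rintro q (rfl | rfl)
    · right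
      obtain ⟨t, ht, ht1⟩ := hne 2 1 (by norm_num) (by omega) (by decide)
        (Nat.coprime_two_right.2 (odd_one.add_even hdev))
      refine ⟨t, ht, ?_⟩
      have h3 := ht1.mul_left k
      rw [mul_one] at h3
      exact h3.trans hn2.symm
    · have key : ∀ a : ℕ, ¬ 3 ∣ a → Nat.Coprime a 3 := fun a ha =>
        Nat.Coprime.symm ((Nat.Prime.coprime_iff_not_dvd Nat.prime_three).2 ha)
      by_cases h3 : 3 ∣ d
      · left
        obtain ⟨s, hs, hs1⟩ := hne 3 1 (by norm_num) (by omega) (by decide) (key _ (by omega))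
        obtain ⟨t, ht, ht1⟩ := hne 3 2 (by norm_num) (by omega) (by decide) (key _ (by omega))
        exact ⟨s, hs, t, ht, fun hst => absurd ((hs1.symm.trans hst).trans ht1) (by decide)⟩
      · right
        obtain ⟨t, ht, ht1⟩ := hne 3 d (by norm_num) (by omega) (key _ h3) (key _ (by omega))
        refine ⟨t, ht, (ht1.mul_left k).trans ?_⟩
        rcases hn3 with h | h
        · exact absurd h h3
        · exact h.symm
  -- the small element
  have hsmall : ∃ s ∈ TT d y, k * s ≤ y := by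
    have h3 := hpl 1 1 le_rfl (by omega) (by simp) (by simp) y' h4y' (hy'y.trans hyx) hy'w
    rw [pairs_le] at h3
    have hy0 : (0 : ℝ) < y' := by exact_mod_cast (by omega : 0 < y')
    have h4 : 0 < 1 / (4 * ((1 : ℕ) : ℝ)) * (Sd d * (y' / L ^ 2)) := by
      rw [Nat.cast_one]
      positivity
    have h5 : 0 < ((TT d y').filter (fun p => p ≡ 1 [MOD 1])).card := by
      exact_mod_cast lt_of_lt_of_le h4 h3
    obtain ⟨s, hs⟩ := card_pos.1 h5
    rw [mem_filter] at hs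
    refine ⟨s, TT_mono d hy'y hs.1, ?_⟩
    have h6 : s ≤ y' := by
      have := hs.1
      unfold TT at this
      exact (mem_Icc.1 (mem_filter.1 this).1).2
    calc k * s ≤ k * y' := Nat.mul_le_mul_left _ h6
      _ ≤ y := by rw [hy']; exact Nat.mul_div_le y k
  obtain ⟨m, hm1, hm2, hm3⟩ := hrep k (by omega) y (TT d y) hTI (by
      have h3 : 4 / δ ≤ y := by linarith
      rw [div_le_iff₀ hδ] at h3
      linarith) hsum hsmall hmix n hloc hyK (by
      have : K ≤ K * y := Nat.le_mul_of_pos_right K (by omega)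
      have e : 3 * K * y = 3 * (K * y) := by ring
      omega)
  refine ⟨m, hm1, fun p hp => ?_, hm3⟩
  have := hm2 p hp
  unfold TT at this
  exact ⟨(mem_filter.1 this).2.1, (mem_filter.1 this).2.2.1⟩

theorem basis_pairs : ∃ k0 : ℕ, ∀ k : ℕ, k0 ≤ k → ∀ (ρ : ℝ), 0 < ρ → ∀ A B T : ℕ, ∃ x₀ : ℕ, ∀ x : ℕ, x₀ ≤ x →
    ∀ q : ℕ, 1 ≤ q → (q : ℝ) ≤ (x : ℝ) ^ (2 / 3 - ρ) → ∀ b : ℤ, (Int.gcd b q : ℝ) ≤ Real.log x ^ T →
    ∃ Bad : Finset ℕ, (Bad.card : ℝ) ≤ x / (q * Real.log x ^ B) ∧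
    ∀ d : ℕ, 0 < d → Even d → (d : ℝ) ≤ x / Real.log x ^ (A + 12) → (d : ℤ) ≡ b [ZMOD q] → d ∉ Bad →
    ∀ n : ℕ, n ≡ k [MOD 2] → (3 ∣ d ∨ n ≡ k * d [MOD 3]) → x / Real.log x ^ A ≤ n → n ≤ x →
    ∃ m : Multiset ℕ, Multiset.card m = k ∧ (∀ p ∈ m, p.Prime ∧ (p + d).Prime) ∧ m.sum = n := by
  obtain ⟨k0, h0⟩ := basis_of_holds
  refine ⟨k0, fun k hk ρ hρ A B T => ?_⟩
  obtain ⟨x₂, h2⟩ := h0 k hk A
  obtain ⟨x₁, h1⟩ := gq_real ρ hρ B 1 (A + 6) T
  obtain ⟨x₃, hx₃⟩ := exists_nat_ge x₁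
  refine ⟨x₂ + x₃, fun x hx q hq hqx b hb => ?_⟩
  have hxx₁ : x₁ ≤ x := hx₃.trans (by exact_mod_cast (by omega : x₃ ≤ x))
  obtain ⟨hfin, hcard⟩ := h1 x hxx₁ q hq hqx b hb
  refine ⟨hfin.toFinset, ?_, ?_⟩
  · rw [← Set.ncard_eq_toFinset_card _ hfin]
    exact hcard
  intro d hd hdev hdx hdb hdB
  refine h2 x (by omega) d hd hdev ?_
  by_contra hcon
  apply hdB
  rw [Set.Finite.mem_toFinset]
  exact ⟨hd, by
    have e : A + 6 + 6 = A + 12 := by omega
    rw [e]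
    exact hdx, hdev, hdb, hcon⟩

end Pool.Agent.K7.H64.BQ
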