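import Pool.Agent.K7.H64.BQ.PairV
import Pool.Agent.K7.H64.LS.Uni

/-!
The sieve product of the pair of forms `n`, `n + d` over the primes in `(k, N]`, and the large sieve at few points and
the restriction theorem for the pairs, uniformly in `d`.
-/

set_option autoImplicit false

open Finset Polynomial

namespace Pool.Agent.K7.H64.BQ

open Pool.Agent.Y843.HS
open Pool.Agent.K7.H64.LS
open Pool.Agent.Helper112 (ee lsSep)

theorem sysX : Pool.Agent.W123.RU.Poly.Sys (fun _ : Unit => (X : ℤ[X])) :=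
  sysOne X irreducible_X (by simp) (by simp) (fun p hp => ⟨1, by
    simp only [eval_X]
    intro h
    have : p ∣ 1 := by exact_mod_cast h
    exact hp.one_lt.ne' (Nat.dvd_one.1 this)⟩)

theorem ZS_X {p : ℕ} (hp : p.Prime) : (ZS (fun _ : Unit => (X : ℤ[X])) p).card ≤ 1 := by
  have h3 : ZS (fun _ : Unit => (X : ℤ[X])) p ⊆ {0} := by
    intro c hc
    have h4 := ZS_lt _ p c hc
    have h5 := (ZS_mem (fun _ : Unit => (X : ℤ[X])) hp.pos c).1 (by rwa [Nat.mod_eq_of_lt h4])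
    obtain ⟨_, h6⟩ := h5
    rw [eval_X] at h6
    have h7 : p ∣ c := by exact_mod_cast h6
    rw [mem_singleton]
    exact Nat.eq_zero_of_dvd_of_lt h7 h4
  exact (card_le_card h3).trans (by simp)

/-- Mertens' upper bound for segments -/
theorem mert_seg : ∃ C : ℝ, 0 < C ∧ ∀ N : ℕ, 2 ≤ N → ∀ k : ℕ, 1 ≤ k →
    ∏ p ∈ Pr k N, (1 - 1 / (p : ℝ)) ≤ C * (Real.log (2 * k) / Real.log N) := by
  obtain ⟨C, hC, h⟩ := W_bounds _ sysX (κ := 1) (by norm_num)
  refine ⟨C, hC, fun N hN k hk => ?_⟩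
  have h1 := (h N hN).2.2 k hk
  have hN2 : (2 : ℝ) ≤ N := by exact_mod_cast hN
  have hlN : 0 < Real.log N := Real.log_pos (by linarith)
  rw [Real.rpow_one, Nat.floor_natCast] at h1
  simp only [Fintype.card_unit, pow_one] at h1
  rw [← mul_div_assoc, le_div_iff₀ hlN]
  refine le_trans (mul_le_mul_of_nonneg_right ?_ hlN.le) h1
  unfold VV
  apply prod_le_prod
  · intro p hp
    have : (2 : ℝ) ≤ p := by exact_mod_cast (Pr_prime hp).two_le
    have : 1 / (p : ℝ) ≤ 1 := by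
      rw [div_le_one (by linarith)]
      linarith
    linarith
  · intro p hp
    have hpp := Pr_prime hp
    have h3 : ((ZS (fun _ : Unit => (X : ℤ[X])) p).card : ℝ) ≤ 1 := by exact_mod_cast ZS_X hpp
    have hp0 : (0 : ℝ) < p := by exact_mod_cast hpp.pos
    have : ((ZS (fun _ : Unit => (X : ℤ[X])) p).card : ℝ) / p ≤ 1 / p := div_le_div_of_nonneg_right h3 hp0.le
    linarith

theorem prod_sub_le {s t : Finset ℕ} (h : s ⊆ t) (g : ℕ → ℝ) (hg : ∀ p ∈ t, 1 ≤ g p) :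
    ∏ p ∈ s, g p ≤ ∏ p ∈ t, g p := by
  rw [← prod_sdiff h]
  apply le_mul_of_one_le_left
  · exact prod_nonneg fun p hp => zero_le_one.trans (hg p (h hp))
  · have : ∏ _p ∈ t \ s, (1 : ℝ) ≤ ∏ p ∈ t \ s, g p := by
      apply prod_le_prod (fun _ _ => zero_le_one)
      intro p hp
      exact hg p (mem_sdiff.1 hp).1
    simpa using this

/-- the product of `1 / (1 - 1 / p ^ 2)` over a set of numbers -/
theorem prod_sq (s : Finset ℕ) (hs : ∀ p ∈ s, 2 ≤ p) : ∏ p ∈ s, (1 / (1 - 1 / (p : ℝ) ^ 2)) ≤ 2 := by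
  have hpos : ∀ p : ℕ, 2 ≤ p → 1 ≤ 1 / (1 - 1 / (p : ℝ) ^ 2) ∧ 0 < 1 - 1 / (p : ℝ) ^ 2 := by
    intro p hp
    have hp2 : (2 : ℝ) ≤ p := by exact_mod_cast hp
    have h1 : 1 / (p : ℝ) ^ 2 ≤ 1 / 4 := by
      apply one_div_le_one_div_of_le (by norm_num)
      nlinarith
    have h2 : 0 < 1 / (p : ℝ) ^ 2 := by positivity
    have h3 : 0 < 1 - 1 / (p : ℝ) ^ 2 := by linarith
    refine ⟨?_, h3⟩
    rw [le_div_iff₀ h3]
    linarith
  -- telescoping product over all integers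
  have htel : ∀ M : ℕ, ∏ p ∈ Finset.Ico 2 (M + 2), (1 / (1 - 1 / (p : ℝ) ^ 2)) =
      2 * ((M : ℝ) + 1) / ((M : ℝ) + 2) := by
    intro M
    induction M with
    | zero => simp
    | succ M ih =>
      rw [show M + 1 + 2 = (M + 2) + 1 by ring, Finset.prod_Ico_succ_top (by omega), ih]
      push_cast
      have h1 : (M : ℝ) + 2 ≠ 0 := by positivity
      have h2 : (M : ℝ) + 3 ≠ 0 := by positivity
      have h3 : ((M : ℝ) + 2) ^ 2 - 1 ≠ 0 := by
        have : (0 : ℝ) ≤ M := Nat.cast_nonneg M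
        nlinarith
      have h4 : (1 : ℝ) - 1 / ((M : ℝ) + 2) ^ 2 = (((M : ℝ) + 2) ^ 2 - 1) / ((M : ℝ) + 2) ^ 2 := by
        field_simp
      have h5 : (M : ℝ) + 1 ≠ 0 := by positivity
      rw [h4]
      have h6 : ((M : ℝ) + 2) ^ 2 - 1 = ((M : ℝ) + 1) * ((M : ℝ) + 3) := by ring
      rw [h6]
      have h7 : (M : ℝ) + 1 + 2 = (M : ℝ) + 3 := by ring
      rw [h7]
      field_simp
      try ring
  obtain ⟨M, hM⟩ : ∃ M : ℕ, ∀ p ∈ s, p < M + 2 := by
    refine ⟨s.sup id, fun p hp => ?_⟩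
    have : p ≤ s.sup id := Finset.le_sup (f := id) hp
    omega
  have hsub : s ⊆ Finset.Ico 2 (M + 2) := fun p hp => Finset.mem_Ico.2 ⟨hs p hp, hM p hp⟩
  have h1 : ∏ p ∈ s, (1 / (1 - 1 / (p : ℝ) ^ 2)) ≤ ∏ p ∈ Finset.Ico 2 (M + 2), (1 / (1 - 1 / (p : ℝ) ^ 2)) := by
    rw [← prod_sdiff hsub]
    apply le_mul_of_one_le_left
    · exact prod_nonneg fun p hp => zero_le_one.trans (hpos p (hs p hp)).1
    · have : ∏ _p ∈ Finset.Ico 2 (M + 2) \ s, (1 : ℝ) ≤ ∏ p ∈ Finset.Ico 2 (M + 2) \ s, (1 / (1 - 1 / (p : ℝ) ^ 2)) := by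
        apply prod_le_prod (fun _ _ => zero_le_one)
        intro p hp
        exact (hpos p (Finset.mem_Ico.1 (mem_sdiff.1 hp).1).1).1
      simpa using this
  refine h1.trans ?_
  rw [htel, div_le_iff₀ (by positivity)]
  have : (0 : ℝ) ≤ M := Nat.cast_nonneg M
  nlinarith

/-- the sieve product of the pair over a segment -/
theorem VV_seg : ∃ C : ℝ, 0 < C ∧ ∀ d : ℕ, Even d → 0 < d → ∀ N : ℕ, 2 ≤ N → ∀ k : ℕ, 1 ≤ k →
    VV (ZS (fd d)) k N ≤ C * (Real.log (2 * k) / Real.log N) ^ 2 *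
      ∏ p ∈ d.primeFactors.filter (fun p => k < p), (1 + 1 / (p : ℝ)) := by
  obtain ⟨C, hC, hm⟩ := mert_seg
  refine ⟨2 * C ^ 2, by positivity, fun d hde hd N hN k hk => ?_⟩
  have h1 : VV (ZS (fd d)) k N ≤ ∏ p ∈ Pr k N, ((1 - 1 / (p : ℝ)) ^ 2 *
      (if p ∣ d then (1 + 1 / (p : ℝ)) * (1 / (1 - 1 / (p : ℝ) ^ 2)) else 1)) := by
    unfold VV
    apply prod_le_prod
    · intro p hp
      have hpp := Pr_prime hp
      have h1 : (ZS (fd d) p).card ≤ p := by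
        have h2 : ZS (fd d) p ⊆ range p := fun c hc => mem_range.2 (ZS_lt _ p c hc)
        simpa using card_le_card h2
      have hp0 : (0 : ℝ) < p := by exact_mod_cast hpp.pos
      rw [sub_nonneg, div_le_one hp0]
      exact_mod_cast h1
    · intro p hp
      have hpp := Pr_prime hp
      have hp2 : (2 : ℝ) ≤ p := by exact_mod_cast hpp.two_le
      have hc1 : (1 : ℝ) ≤ ((ZS (fd d) p).card : ℝ) := by exact_mod_cast card_one d hpp
      have hd1 : 1 / (p : ℝ) ≤ ((ZS (fd d) p).card : ℝ) / p := div_le_div_of_nonneg_right hc1 (by linarith)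
      by_cases hdv : p ∣ d
      · rw [if_pos hdv]
        refine (sub_le_sub_left hd1 1).trans (le_of_eq ?_)
        have h5 : (p : ℝ) ≠ 0 := by linarith
        have h6 : (p : ℝ) ^ 2 - 1 ≠ 0 := by nlinarith
        have h7 : (1 : ℝ) - 1 / (p : ℝ) ^ 2 = ((p : ℝ) ^ 2 - 1) / (p : ℝ) ^ 2 := by field_simp
        rw [h7]
        field_simp
        ring
      · rw [if_neg hdv, mul_one]
        have hc2 : (2 : ℝ) ≤ ((ZS (fd d) p).card : ℝ) := by exact_mod_cast card_two hpp hdv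
        have hd2 : 2 / (p : ℝ) ≤ ((ZS (fd d) p).card : ℝ) / p := div_le_div_of_nonneg_right hc2 (by linarith)
        have e : (1 - 1 / (p : ℝ)) ^ 2 = 1 - 2 / p + (1 / p) ^ 2 := by ring
        have : 0 ≤ (1 / (p : ℝ)) ^ 2 := sq_nonneg _
        linarith
  refine h1.trans ?_
  rw [prod_mul_distrib, prod_pow]
  have hP0 : 0 ≤ ∏ p ∈ Pr k N, (1 - 1 / (p : ℝ)) := prod_nonneg fun p hp => by
    have : (2 : ℝ) ≤ p := by exact_mod_cast (Pr_prime hp).two_le
    rw [sub_nonneg, div_le_one (by linarith)]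
    linarith
  have hP1 : (∏ p ∈ Pr k N, (1 - 1 / (p : ℝ))) ^ 2 ≤ C ^ 2 * (Real.log (2 * k) / Real.log N) ^ 2 := by
    rw [← mul_pow]
    exact pow_le_pow_left₀ hP0 (hm N hN k hk) 2
  have hb : ∏ p ∈ Pr k N, (if p ∣ d then (1 + 1 / (p : ℝ)) * (1 / (1 - 1 / (p : ℝ) ^ 2)) else 1) ≤
      (∏ p ∈ d.primeFactors.filter (fun p => k < p), (1 + 1 / (p : ℝ))) * 2 := by
    rw [← prod_filter, prod_mul_distrib]
    have h2 : ∀ p ∈ (Pr k N).filter (fun p => p ∣ d), 2 ≤ p := fun p hp => (Pr_prime (mem_filter.1 hp).1).two_le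
    apply mul_le_mul _ (prod_sq _ h2)
    · refine prod_nonneg fun p hp => ?_
      have hp2 : (2 : ℝ) ≤ p := by exact_mod_cast h2 p hp
      have h1 : 1 / (p : ℝ) ^ 2 ≤ 1 := by
        rw [div_le_one (by positivity)]
        nlinarith
      apply div_nonneg zero_le_one
      linarith
    · exact prod_nonneg fun p _ => by positivity
    · have hsub : (Pr k N).filter (fun p => p ∣ d) ⊆ d.primeFactors.filter (fun p => k < p) := by
        intro p hp
        rw [mem_filter, Pr_mem] at hp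
        rw [mem_filter, Nat.mem_primeFactors]
        exact ⟨⟨hp.1.2, hp.2, hd.ne'⟩, hp.1.1.1⟩
      apply prod_sub_le hsub
      intro p _
      have : (0 : ℝ) ≤ 1 / p := by positivity
      linarith
  have hb0 : 0 ≤ ∏ p ∈ Pr k N, (if p ∣ d then (1 + 1 / (p : ℝ)) * (1 / (1 - 1 / (p : ℝ) ^ 2)) else 1) := by
    refine prod_nonneg fun p hp => ?_
    split_ifs
    · have hp2 : (2 : ℝ) ≤ p := by exact_mod_cast (Pr_prime hp).two_le
      have h1 : 1 / (p : ℝ) ^ 2 ≤ 1 := by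
        rw [div_le_one (by positivity)]
        nlinarith
      apply mul_nonneg (by positivity)
      apply div_nonneg zero_le_one
      linarith
    · exact zero_le_one
  calc (∏ p ∈ Pr k N, (1 - 1 / (p : ℝ))) ^ 2 *
        ∏ p ∈ Pr k N, (if p ∣ d then (1 + 1 / (p : ℝ)) * (1 / (1 - 1 / (p : ℝ) ^ 2)) else 1)
      ≤ (C ^ 2 * (Real.log (2 * k) / Real.log N) ^ 2) *
        ((∏ p ∈ d.primeFactors.filter (fun p => k < p), (1 + 1 / (p : ℝ))) * 2) := by
        apply mul_le_mul hP1 hb hb0 (by positivity)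
    _ = _ := by ring

/-- the large sieve at few points for the pairs, uniformly in the difference -/
theorem lsf_pair {κ : ℝ} (hκ : 0 < κ) : ∃ C : ℝ, 0 < C ∧ ∀ d : ℕ, Even d → 0 < d → ∀ N : ℕ, 2 ≤ N →
    ∀ (A : ℕ) (S : Finset ℕ), S ⊆ Ioc A (A + N) → (∀ n ∈ S, Good (fd d) κ N n) →
    ∀ (k : ℕ) (α : Fin k → ℝ) (δ : ℝ), 0 < δ →
    (∀ i j, i ≠ j → ∀ m : ℤ, δ ≤ |α i - α j - m|) → ∀ a : ℕ → ℂ,
    ∑ i, ‖∑ n ∈ S, a n * Complex.exp (2 * Real.pi * Complex.I * n * α i)‖ ^ 2 ≤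
      C * ((N : ℝ) + 1 / δ) * ((Real.log (2 * k) / Real.log N) ^ 2 *
        ∏ p ∈ d.primeFactors.filter (fun p => k < p), (1 + 1 / (p : ℝ))) * ∑ n ∈ S, ‖a n‖ ^ 2 := by
  obtain ⟨C, hC, h⟩ := lsf_uni (ι := Fin 2) 2 hκ
  obtain ⟨C2, hC2, h2⟩ := VV_seg
  refine ⟨2 * C * C2, by positivity, ?_⟩
  intro d hde hd N hN A S hSI hSG k α δ hδ hsep a
  have hN2 : (2 : ℝ) ≤ N := by exact_mod_cast hN
  have hK1 : 1 ≤ ⌈1 / δ⌉₊ := Nat.one_le_ceil_iff.2 (by positivity)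
  have hKle : (⌈1 / δ⌉₊ : ℝ) ≤ 1 / δ + 1 := (Nat.ceil_lt_add_one (by positivity)).le
  rcases Nat.eq_zero_or_pos k with hk | hk
  · subst hk
    have hP : 0 ≤ ∏ p ∈ d.primeFactors.filter (fun p => 0 < p), (1 + 1 / (p : ℝ)) :=
      prod_nonneg fun p _ => by positivity
    have hG0 : 0 ≤ ∑ n ∈ S, ‖a n‖ ^ 2 := sum_nonneg fun i _ => by positivity
    rw [Finset.univ_eq_empty, sum_empty]
    positivity
  have h1 := h (fd d) (fd_adm hde) N hN A S hSI hSG (Fin k) univ α ⌈1 / δ⌉₊ hK1 (fun i _ j _ hij =>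
    sep_real hδ (fun m => hsep j i (Ne.symm hij) m)) a
  rw [card_univ, Fintype.card_fin] at h1
  have h3 := h2 d hde hd N hN k hk
  have hG0 : 0 ≤ ∑ n ∈ S, ‖a n‖ ^ 2 := sum_nonneg fun i _ => by positivity
  obtain ⟨P, hP⟩ : ∃ P : ℝ, P = ∏ p ∈ d.primeFactors.filter (fun p => k < p), (1 + 1 / (p : ℝ)) := ⟨_, rfl⟩
  have hP0 : 0 ≤ P := by rw [hP]; exact prod_nonneg fun p _ => by positivity
  rw [← hP] at h3 ⊢
  have hd : 0 < 1 / δ := by positivity
  calc ∑ i, ‖∑ n ∈ S, a n * Complex.exp (2 * Real.pi * Complex.I * n * α i)‖ ^ 2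
      = ∑ i, ‖∑ n ∈ S, a n * ee (n * α i)‖ ^ 2 := by
        refine sum_congr rfl fun i _ => ?_
        have e : ∑ n ∈ S, a n * Complex.exp (2 * Real.pi * Complex.I * n * α i) =
            ∑ n ∈ S, a n * ee (n * α i) := by
          refine sum_congr rfl fun n _ => ?_
          unfold ee
          congr 2
          push_cast
          ring
        rw [e]
    _ ≤ _ := h1
    _ ≤ C * ((N : ℝ) + ⌈1 / δ⌉₊) * (C2 * (Real.log (2 * k) / Real.log N) ^ 2 * P) * ∑ n ∈ S, ‖a n‖ ^ 2 := by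
        apply mul_le_mul_of_nonneg_right _ hG0
        apply mul_le_mul_of_nonneg_left h3 (by positivity)
    _ ≤ C * (2 * ((N : ℝ) + 1 / δ)) * (C2 * (Real.log (2 * k) / Real.log N) ^ 2 * P) * ∑ n ∈ S, ‖a n‖ ^ 2 := by
        apply mul_le_mul_of_nonneg_right _ hG0
        apply mul_le_mul_of_nonneg_right _ (by positivity)
        apply mul_le_mul_of_nonneg_left _ hC.le
        linarith
    _ = _ := by ring

end Pool.Agent.K7.H64.BQ
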