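import Pool.Agent.K7.H64.LS.DenseU
import Pool.Agent.K7.H64.BQ.PairL

/-!
Sums of dense sets of primes `p` with `p + d` prime, uniformly in `d`.
-/

set_option autoImplicit false

open Finset Polynomial

namespace Pool.Agent.K7.H64.BQ

open Pool.Agent.Y843.HS
open Pool.Agent.K7.H64.LS

/-- the product of `1 + 1 / p` over the prime factors `p > t` of `d` -/
noncomputable def PP (t : ℝ) (d : ℕ) : ℝ := ∏ p ∈ d.primeFactors.filter (fun p : ℕ => t < p), (1 + 1 / (p : ℝ))

theorem one_le_PP (t : ℝ) (d : ℕ) : 1 ≤ PP t d := by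
  unfold PP
  have : ∏ _p ∈ d.primeFactors.filter (fun p : ℕ => t < p), (1 : ℝ) ≤
      ∏ p ∈ d.primeFactors.filter (fun p : ℕ => t < p), (1 + 1 / (p : ℝ)) := by
    apply prod_le_prod (fun _ _ => zero_le_one)
    intro p _
    have : (0 : ℝ) ≤ 1 / p := by positivity
    linarith
  simpa using this

theorem PP_anti {t t' : ℝ} (h : t ≤ t') (d : ℕ) : PP t' d ≤ PP t d := by
  unfold PP
  apply prod_sub_le
  · intro p hp
    rw [mem_filter] at hp ⊢
    exact ⟨hp.1, h.trans_lt hp.2⟩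
  · intro p _
    have : (0 : ℝ) ≤ 1 / p := by positivity
    linarith

theorem PP_nat (k d : ℕ) : ∏ p ∈ d.primeFactors.filter (fun p => k < p), (1 + 1 / (p : ℝ)) = PP k d := by
  unfold PP
  congr 1
  apply filter_congr
  intro p _
  exact Nat.cast_lt.symm

theorem log_two_mul {K : ℝ} (hK : 1 ≤ K) : ∃ K' : ℝ, 0 < K' ∧ ∀ t : ℝ, 0 < t → ∀ y : ℝ, 1 ≤ y →
    y ≤ K + Real.log (2 + t) → Real.log (2 * y) ≤ K' * Real.log (2 + Real.log (2 + t)) := by
  have hlog2 : 0 < Real.log 2 := Real.log_pos (by norm_num)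
  have hlK : 0 ≤ Real.log (2 * K) := Real.log_nonneg (by linarith)
  refine ⟨Real.log (2 * K) / Real.log 2 + 1, by positivity, fun t ht y hy1 hy => ?_⟩
  have hl : 0 < Real.log (2 + t) := Real.log_pos (by linarith)
  have h1 : 2 * y ≤ 2 * K * (2 + Real.log (2 + t)) := by nlinarith
  have h2 := Real.log_le_log (by linarith) h1
  have h2' := Real.log_mul (show 2 * K ≠ 0 by linarith) (show 2 + Real.log (2 + t) ≠ 0 by linarith)
  rw [h2'] at h2
  have h3 : Real.log 2 ≤ Real.log (2 + Real.log (2 + t)) := Real.log_le_log (by norm_num) (by linarith)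
  have h4 : Real.log (2 * K) ≤ Real.log (2 * K) / Real.log 2 * Real.log (2 + Real.log (2 + t)) := by
    rw [div_mul_eq_mul_div, le_div_iff₀ hlog2]
    exact mul_le_mul_of_nonneg_left h3 hlK
  linarith

theorem dense_pair {κ : ℝ} (hκ : 0 < κ) : ∃ c : ℝ, 0 < c ∧ ∀ d d' : ℕ, Even d → 0 < d → Even d' → 0 < d' →
    ∀ N : ℕ, 2 ≤ N → ∀ (x x' : ℕ) (A B S : Finset ℕ), A ⊆ Ioc x (x + N) → B ⊆ Ioc x' (x' + N) →
    (∀ n ∈ A, Good (fd d) κ N n) → (∀ n ∈ B, Good (fd d') κ N n) → (∀ m ∈ A, ∀ n ∈ B, m + n ∈ S) →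
    PP 0 d * N / Real.log N ^ (21 / 10 : ℝ) ≤ A.card → PP 0 d' * N / Real.log N ^ (21 / 10 : ℝ) ≤ B.card →
    c * (A.card * Real.log N ^ 2) ≤ Real.log (2 + Real.log (2 + PP 0 d' * N / (B.card * Real.log N ^ 2))) ^ 2 *
      PP (Real.log (2 + PP 0 d' * N / (B.card * Real.log N ^ 2))) d * S.card := by
  classical
  obtain ⟨C, hC, h1⟩ := dense_uni (ι := Fin 2) (ι' := Fin 2) 2 2 hκ
  obtain ⟨C2, hC2, h2⟩ := VV_seg
  obtain ⟨K0, hK0⟩ : ∃ K0 : ℝ, K0 = C2 * Real.log 2 ^ 2 + 1 := ⟨_, rfl⟩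
  have hlog2 : 0 < Real.log 2 := Real.log_pos (by norm_num)
  have hK01 : 1 ≤ K0 := by
    rw [hK0]
    have : 0 < C2 * Real.log 2 ^ 2 := by positivity
    linarith
  have hK00 : 0 < K0 := by linarith
  have hlK0 : 0 ≤ Real.log K0 := Real.log_nonneg hK01
  obtain ⟨K3, hK3, h3⟩ := log_two_mul (K := Real.log K0 + 1) (by linarith)
  -- large `N`
  obtain ⟨x0, hx0⟩ : ∃ x0 : ℝ, x0 = K0 ^ (90 : ℝ) := ⟨_, rfl⟩
  have hx00 : 0 < x0 := by rw [hx0]; positivity
  have hc1 : 0 < Real.log 2 ^ 2 / x0 ^ 2 := by positivity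
  have hc2 : 0 < 1 / (C * (C2 * K3 ^ 2)) := by positivity
  refine ⟨min (Real.log 2 ^ 2 / x0 ^ 2) (1 / (C * (C2 * K3 ^ 2))), lt_min hc1 hc2, ?_⟩
  intro d d' hde hd hde' hd' N hN x x' A B S hA hB hGA hGB hS hdA hdB
  have hN2 : (2 : ℝ) ≤ N := by exact_mod_cast hN
  have hN0 : (0 : ℝ) < N := by linarith
  have hlN : 0 < Real.log N := Real.log_pos (by linarith)
  have hP : 1 ≤ PP 0 d := one_le_PP 0 d
  have hP' : 1 ≤ PP 0 d' := one_le_PP 0 d'
  have hA0 : (0 : ℝ) < A.card := lt_of_lt_of_le (by positivity) hdA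
  have hB0 : (0 : ℝ) < B.card := lt_of_lt_of_le (by positivity) hdB
  have hnA : A.Nonempty := card_pos.1 (by exact_mod_cast hA0)
  have hnB : B.Nonempty := card_pos.1 (by exact_mod_cast hB0)
  have hScard : (A.card : ℝ) ≤ S.card := by
    obtain ⟨b, hb⟩ := hnB
    have h5 : A.image (fun a => a + b) ⊆ S := by
      intro x hx
      obtain ⟨a, ha, rfl⟩ := mem_image.1 hx
      exact hS a ha b hb
    have h6 := card_le_card h5
    rw [card_image_of_injective _ (add_left_injective b)] at h6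
    exact_mod_cast h6
  obtain ⟨X, hX⟩ : ∃ X : ℝ, X = PP 0 d' * N / (B.card * Real.log N ^ 2) := ⟨_, rfl⟩
  have hX0 : 0 < X := by rw [hX]; positivity
  rw [← hX]
  obtain ⟨Λ, hΛ⟩ : ∃ Λ : ℝ, Λ = Real.log (2 + Real.log (2 + X)) := ⟨_, rfl⟩
  have hlX : 0 < Real.log (2 + X) := Real.log_pos (by linarith)
  have hΛ2 : Real.log 2 ≤ Λ := by rw [hΛ]; exact Real.log_le_log (by norm_num) (by linarith)
  have hΛ0 : 0 < Λ := by linarith
  rw [← hΛ]
  have hQ : 1 ≤ PP (Real.log (2 + X)) d := one_le_PP _ d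
  rcases lt_or_ge (Real.log N) x0 with hsm | hbig
  · -- small `N`
    have e1 : Real.log N ^ 2 ≤ x0 ^ 2 := pow_le_pow_left₀ hlN.le hsm.le 2
    calc min (Real.log 2 ^ 2 / x0 ^ 2) (1 / (C * (C2 * K3 ^ 2))) * (A.card * Real.log N ^ 2)
        ≤ Real.log 2 ^ 2 / x0 ^ 2 * (A.card * x0 ^ 2) := by
          apply mul_le_mul (min_le_left _ _) _ (by positivity) hc1.le
          exact mul_le_mul_of_nonneg_left e1 hA0.le
      _ = Real.log 2 ^ 2 * 1 * A.card := by field_simp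
      _ ≤ Λ ^ 2 * PP (Real.log (2 + X)) d * S.card := by
          apply mul_le_mul _ hScard hA0.le (by positivity)
          apply mul_le_mul (pow_le_pow_left₀ hlog2.le hΛ2 2) hQ zero_le_one (by positivity)
  -- the sieve products
  have hVV : ∀ d : ℕ, Even d → 0 < d → VV (ZS (fd d)) 0 N ≤ K0 * PP 0 d / Real.log N ^ 2 := by
    intro d hde hd
    have e1 := h2 d hde hd N hN 1 le_rfl
    have e2 : VV (ZS (fd d)) 0 N = VV (ZS (fd d)) 1 N := by
      unfold VV
      congr 1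
      ext p
      rw [Pr_mem, Pr_mem]
      constructor
      · rintro ⟨⟨_, h4⟩, h5⟩
        exact ⟨⟨h5.one_lt, h4⟩, h5⟩
      · rintro ⟨⟨_, h4⟩, h5⟩
        exact ⟨⟨h5.pos, h4⟩, h5⟩
    rw [PP_nat] at e1
    have e3 : PP ((1 : ℕ) : ℝ) d ≤ PP 0 d := PP_anti (by norm_num) d
    have e4 := one_le_PP 0 d
    have e6 := one_le_PP ((1 : ℕ) : ℝ) d
    rw [e2]
    refine e1.trans ?_
    rw [Nat.cast_one] at e3 ⊢
    rw [mul_one, div_pow]
    calc C2 * (Real.log 2 ^ 2 / Real.log N ^ 2) * PP 1 d ≤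
          C2 * (Real.log 2 ^ 2 / Real.log N ^ 2) * PP 0 d := mul_le_mul_of_nonneg_left e3 (by positivity)
      _ = (C2 * Real.log 2 ^ 2) * PP 0 d / Real.log N ^ 2 := by ring
      _ ≤ K0 * PP 0 d / Real.log N ^ 2 := by
          apply div_le_div_of_nonneg_right _ (by positivity)
          apply mul_le_mul_of_nonneg_right _ (by linarith)
          rw [hK0]
          linarith
  have hdens : ∀ (d : ℕ) (A : Finset ℕ), Even d → 0 < d → (0 : ℝ) < A.card →
      N * VV (ZS (fd d)) 0 N / A.card ≤ K0 * (PP 0 d * N / (A.card * Real.log N ^ 2)) := by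
    intro d A hde hd hA0
    rw [div_le_iff₀ hA0]
    calc N * VV (ZS (fd d)) 0 N ≤ N * (K0 * PP 0 d / Real.log N ^ 2) :=
          mul_le_mul_of_nonneg_left (hVV d hde hd) hN0.le
      _ = _ := by
          field_simp
  have hpow : K0 ≤ Real.log N ^ (1 / 90 : ℝ) := by
    calc K0 = (K0 ^ (90 : ℝ)) ^ (1 / 90 : ℝ) := by
          rw [← Real.rpow_mul hK00.le]
          norm_num
      _ ≤ _ := Real.rpow_le_rpow (by positivity) (by rw [← hx0]; exact hbig) (by norm_num)
  have hbound : ∀ (d : ℕ) (A : Finset ℕ), Even d → 0 < d → (0 : ℝ) < A.card →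
      PP 0 d * N / Real.log N ^ (21 / 10 : ℝ) ≤ A.card →
      N * VV (ZS (fd d)) 0 N / A.card ≤ Real.log N ^ (1 / 9 : ℝ) := by
    intro d A hde hd hA0 hdA
    refine (hdens d A hde hd hA0).trans ?_
    have e1 : PP 0 d * N / (A.card * Real.log N ^ 2) ≤ Real.log N ^ (1 / 10 : ℝ) := by
      rw [div_le_iff₀ (by positivity)]
      rw [div_le_iff₀ (by positivity)] at hdA
      have e2 : Real.log N ^ (21 / 10 : ℝ) = Real.log N ^ (1 / 10 : ℝ) * Real.log N ^ 2 := by
        rw [← Real.rpow_natCast, ← Real.rpow_add hlN]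
        norm_num
      rw [e2] at hdA
      linarith
    have e3 : Real.log N ^ (1 / 90 : ℝ) * Real.log N ^ (1 / 10 : ℝ) = Real.log N ^ (1 / 9 : ℝ) := by
      rw [← Real.rpow_add hlN]
      norm_num
    rw [← e3]
    exact mul_le_mul hpow e1 (by have := one_le_PP 0 d; positivity) (by positivity)
  -- the threshold
  obtain ⟨y, hy⟩ : ∃ y : ℕ, y = ⌈Real.log (2 + K0 * X)⌉₊ := ⟨_, rfl⟩
  have hlKX : Real.log 2 ≤ Real.log (2 + K0 * X) := Real.log_le_log (by norm_num) (by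
    have : 0 < K0 * X := by positivity
    linarith)
  have hy1 : Real.log (2 + K0 * X) ≤ y := by rw [hy]; exact Nat.le_ceil _
  have hy0 : 1 ≤ y := by
    rw [hy]
    exact Nat.one_le_ceil_iff.2 (by linarith)
  have hXy : Real.log (2 + X) ≤ y := by
    refine le_trans (Real.log_le_log (by linarith) ?_) hy1
    nlinarith
  have hyup : (y : ℝ) ≤ (Real.log K0 + 1) + Real.log (2 + X) := by
    have e1 : (y : ℝ) ≤ Real.log (2 + K0 * X) + 1 := by
      rw [hy]
      exact (Nat.ceil_lt_add_one (by linarith)).le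
    have e2 : Real.log (2 + K0 * X) ≤ Real.log K0 + Real.log (2 + X) := by
      rw [← Real.log_mul hK00.ne' (by linarith)]
      apply Real.log_le_log (by positivity)
      nlinarith
    linarith
  have e1 := h1 (fd d) (fd d') (fd_adm hde) (fd_adm hde') N hN x x' A B S hA hB hGA hGB hnA hnB hS
    (hbound d A hde hd hA0 hdA) (hbound d' B hde' hd' hB0 hdB) y (by
      refine le_trans (Real.log_le_log ?_ ?_) hy1
      · have : 0 < VV (ZS (fd d')) 0 N := VV_nonneg fun p hp => (ZS_uni (fd_adm hde') (Pr_prime hp)).2.1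
        positivity
      · have := hdens d' B hde' hd' hB0
        rw [← hX] at this
        linarith)
  have e2 := h2 d hde hd N hN y hy0
  rw [PP_nat] at e2
  have e3 := h3 X hX0 y (by exact_mod_cast hy0) hyup
  rw [← hΛ] at e3
  have e4 : PP (y : ℝ) d ≤ PP (Real.log (2 + X)) d := PP_anti hXy d
  have hly : 0 ≤ Real.log (2 * y) := Real.log_nonneg (by
    have : (1 : ℝ) ≤ y := by exact_mod_cast hy0
    linarith)
  have hPy := one_le_PP (y : ℝ) d
  have hSc : (0 : ℝ) < S.card := by linarith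
  have e5 : (A.card : ℝ) * Real.log N ^ 2 ≤
      (C * (C2 * K3 ^ 2)) * (Λ ^ 2 * PP (Real.log (2 + X)) d * S.card) := by
    calc (A.card : ℝ) * Real.log N ^ 2 ≤ (C * VV (ZS (fd d)) y N * S.card) * Real.log N ^ 2 :=
          mul_le_mul_of_nonneg_right e1 (by positivity)
      _ ≤ (C * (C2 * (Real.log (2 * y) / Real.log N) ^ 2 * PP (y : ℝ) d) * S.card) * Real.log N ^ 2 := by
          apply mul_le_mul_of_nonneg_right _ (by positivity)
          apply mul_le_mul_of_nonneg_right _ hSc.le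
          exact mul_le_mul_of_nonneg_left e2 hC.le
      _ = C * C2 * (Real.log (2 * y) ^ 2 * PP (y : ℝ) d) * S.card := by
          field_simp
      _ ≤ C * C2 * ((K3 * Λ) ^ 2 * PP (Real.log (2 + X)) d) * S.card := by
          apply mul_le_mul_of_nonneg_right _ hSc.le
          apply mul_le_mul_of_nonneg_left _ (by positivity)
          apply mul_le_mul (pow_le_pow_left₀ hly e3 2) e4 (by linarith) (by positivity)
      _ = _ := by ring
  calc min (Real.log 2 ^ 2 / x0 ^ 2) (1 / (C * (C2 * K3 ^ 2))) * (A.card * Real.log N ^ 2)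
      ≤ 1 / (C * (C2 * K3 ^ 2)) * (A.card * Real.log N ^ 2) :=
        mul_le_mul_of_nonneg_right (min_le_right _ _) (by positivity)
    _ ≤ 1 / (C * (C2 * K3 ^ 2)) * ((C * (C2 * K3 ^ 2)) * (Λ ^ 2 * PP (Real.log (2 + X)) d * S.card)) :=
        mul_le_mul_of_nonneg_left e5 hc2.le
    _ = _ := by
        rw [← mul_assoc, one_div_mul_cancel (by positivity), one_mul]

end Pool.Agent.K7.H64.BQ
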