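import Pool.Agent.K7.H64.BQ.Full
import Pool.Agent.K7.H64.LS.Inst

/-!
The sieve product of the pair of forms `n`, `n + d`.
-/

set_option autoImplicit false

open Finset Polynomial

namespace Pool.Agent.K7.H64.BQ

open Pool.Agent.Y843.HS
open Pool.Agent.K7.H64.LS

/-- the product of `(p - 1) / (p - 2)` over the odd prime divisors -/
noncomputable def Sd (d : ℕ) : ℝ := ∏ p ∈ d.primeFactors.filter (fun p => 2 < p), (((p : ℝ) - 1) / ((p : ℝ) - 2))

/-- the forms `n` and `n + d` -/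
noncomputable def fd (d : ℕ) : Fin 2 → ℤ[X] := ![X, X + C (d : ℤ)]

theorem fd_eval (d : ℕ) (n : ℤ) : (fd d 0).eval n = n ∧ (fd d 1).eval n = n + d := by
  unfold fd
  simp

theorem fd_adm {d : ℕ} (hd : Even d) : Adm (fd d) 2 := by
  refine ⟨?_, ?_, ?_⟩
  · intro i
    fin_cases i
    · simp [fd]
    · change 0 < (X + C (d : ℤ) : ℤ[X]).natDegree
      rw [natDegree_X_add_C]
      norm_num
  · rw [Fin.sum_univ_two]
    change (X : ℤ[X]).natDegree + (X + C (d : ℤ) : ℤ[X]).natDegree ≤ 2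
    rw [natDegree_X_add_C, natDegree_X]
  · intro p hp
    have key : ∃ m : ℕ, ¬ (p ∣ m) ∧ ¬ (p ∣ m + d) := by
      rcases hp.eq_two_or_odd' with h2 | hodd
      · subst h2
        refine ⟨1, by norm_num, ?_⟩
        have := hd.two_dvd
        omega
      · have h3 : 3 ≤ p := by
          have := hp.two_le
          rcases hodd with ⟨t, ht⟩
          omega
        by_cases h : p ∣ 1 + d
        · refine ⟨2, fun h' => ?_, fun h' => ?_⟩
          · have := Nat.le_of_dvd (by norm_num) h'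
            omega
          · have h4 : p ∣ 1 := by
              have := Nat.dvd_sub h' h
              have e : 2 + d - (1 + d) = 1 := by omega
              rwa [e] at this
            exact hp.one_lt.ne' (Nat.dvd_one.1 h4)
        · refine ⟨1, fun h' => ?_, h⟩
          exact hp.one_lt.ne' (Nat.dvd_one.1 h')
    obtain ⟨m, h1, h2⟩ := key
    refine ⟨m, fun i => ?_⟩
    fin_cases i
    · change ¬ (p : ℤ) ∣ (fd d 0).eval (m : ℤ)
      rw [(fd_eval d m).1]
      exact_mod_cast h1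
    · change ¬ (p : ℤ) ∣ (fd d 1).eval (m : ℤ)
      rw [(fd_eval d m).2]
      exact_mod_cast h2

theorem ZS_fd (d : ℕ) {p : ℕ} (hp : p.Prime) (n : ℕ) : n % p ∈ ZS (fd d) p ↔ p ∣ n ∨ p ∣ n + d := by
  rw [ZS_mem _ hp.pos]
  constructor
  · rintro ⟨i, hi⟩
    fin_cases i
    · left
      change (p : ℤ) ∣ (fd d 0).eval (n : ℤ) at hi
      rw [(fd_eval d n).1] at hi
      exact_mod_cast hi
    · right
      change (p : ℤ) ∣ (fd d 1).eval (n : ℤ) at hi
      rw [(fd_eval d n).2] at hi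
      exact_mod_cast hi
  · rintro (h | h)
    · refine ⟨0, ?_⟩
      rw [(fd_eval d n).1]
      exact_mod_cast h
    · refine ⟨1, ?_⟩
      rw [(fd_eval d n).2]
      exact_mod_cast h

theorem zero_mem_ZS (d : ℕ) {p : ℕ} (hp : p.Prime) : 0 ∈ ZS (fd d) p := by
  have := (ZS_fd d hp 0).2 (Or.inl (dvd_zero p))
  simpa using this

theorem card_one (d : ℕ) {p : ℕ} (hp : p.Prime) : 1 ≤ (ZS (fd d) p).card := card_pos.2 ⟨0, zero_mem_ZS d hp⟩

theorem card_two {d : ℕ} {p : ℕ} (hp : p.Prime) (h : ¬ p ∣ d) : 2 ≤ (ZS (fd d) p).card := by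
  have h1 : (p - d % p) % p ∈ ZS (fd d) p := by
    rw [ZS_fd d hp]
    right
    have h2 : d % p < p := Nat.mod_lt _ hp.pos
    have e : p - d % p + d = p + p * (d / p) := by
      have := Nat.mod_add_div d p
      omega
    rw [e]
    exact dvd_add dvd_rfl (dvd_mul_right _ _)
  have h2 : (p - d % p) % p ≠ 0 := by
    have h3 : 0 < d % p := Nat.pos_of_ne_zero fun h0 => h (Nat.dvd_of_mod_eq_zero h0)
    have h4 : d % p < p := Nat.mod_lt _ hp.pos
    rw [Nat.mod_eq_of_lt (by omega)]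
    omega
  have h3 : ({0, (p - d % p) % p} : Finset ℕ) ⊆ ZS (fd d) p := by
    intro x hx
    rw [mem_insert, mem_singleton] at hx
    rcases hx with rfl | rfl
    · exact zero_mem_ZS d hp
    · exact h1
  have h4 := card_le_card h3
  rwa [card_pair (Ne.symm h2)] at h4

/-- Mertens' upper bound -/
theorem mert : ∃ C : ℝ, 0 < C ∧ ∀ Y : ℕ, 3 ≤ Y → ∏ p ∈ Pr 0 Y, (1 - 1 / (p : ℝ)) ≤ C / Real.log Y := by
  have hs : Pool.Agent.W123.RU.Poly.Sys (fun _ : Unit => (X : ℤ[X])) :=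
    sysOne X irreducible_X (by simp) (by simp) (fun p hp => ⟨1, by
      simp only [eval_X]
      intro h
      have : p ∣ 1 := by exact_mod_cast h
      exact hp.one_lt.ne' (Nat.dvd_one.1 this)⟩)
  obtain ⟨v, Cv, _, hCv, hV⟩ := Pool.Agent.W123.RU.Poly.V_bounds _ hs
  refine ⟨Cv, hCv, fun Y hY => ?_⟩
  have h1 := (hV Y hY).2
  rw [← VV_ZS] at h1
  simp only [Fintype.card_unit, pow_one] at h1
  refine le_trans ?_ h1
  unfold VV
  apply prod_le_prod
  · intro p hp
    have : (2 : ℝ) ≤ p := by exact_mod_cast (Pr_prime hp).two_le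
    have : 1 / (p : ℝ) ≤ 1 := by
      rw [div_le_one (by linarith)]
      linarith
    linarith
  · intro p hp
    have hpp := Pr_prime hp
    have h2 : (ZS (fun _ : Unit => (X : ℤ[X])) p).card ≤ 1 := by
      have h3 : ZS (fun _ : Unit => (X : ℤ[X])) p ⊆ {0} := by
        intro c hc
        have h4 := ZS_lt _ p c hc
        have h5 := (ZS_mem (fun _ : Unit => (X : ℤ[X])) hpp.pos c).1 (by rwa [Nat.mod_eq_of_lt h4])
        obtain ⟨_, h6⟩ := h5
        rw [eval_X] at h6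
        have h7 : p ∣ c := by exact_mod_cast h6
        rw [mem_singleton]
        exact Nat.eq_zero_of_dvd_of_lt h7 h4
      exact (card_le_card h3).trans (by simp)
    have h3 : ((ZS (fun _ : Unit => (X : ℤ[X])) p).card : ℝ) ≤ 1 := by exact_mod_cast h2
    have hp0 : (0 : ℝ) < p := by exact_mod_cast hpp.pos
    have : ((ZS (fun _ : Unit => (X : ℤ[X])) p).card : ℝ) / p ≤ 1 / p := div_le_div_of_nonneg_right h3 hp0.le
    linarith

theorem one_le_Sd_factor {p : ℕ} (hp : 2 < p) : 1 ≤ ((p : ℝ) - 1) / ((p : ℝ) - 2) := by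
  have : (3 : ℝ) ≤ p := by exact_mod_cast hp
  rw [le_div_iff₀ (by linarith)]
  linarith

theorem one_le_Sd (d : ℕ) : 1 ≤ Sd d := by
  unfold Sd
  have : ∏ _p ∈ d.primeFactors.filter (fun p => 2 < p), (1 : ℝ) ≤
      ∏ p ∈ d.primeFactors.filter (fun p => 2 < p), (((p : ℝ) - 1) / ((p : ℝ) - 2)) := by
    apply prod_le_prod (fun _ _ => zero_le_one)
    intro p hp
    exact one_le_Sd_factor (mem_filter.1 hp).2
  simpa using this

/-- the sieve product of the pair -/
theorem VV_pairs : ∃ C : ℝ, 0 < C ∧ ∀ d : ℕ, 0 < d → ∀ Y : ℕ, 3 ≤ Y →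
    VV (ZS (fd d)) 0 Y ≤ C * Sd d / Real.log Y ^ 2 := by
  obtain ⟨C, hC, hm⟩ := mert
  refine ⟨2 * C ^ 2, by positivity, fun d hd Y hY => ?_⟩
  have h1 : VV (ZS (fd d)) 0 Y ≤ ∏ p ∈ Pr 0 Y, ((1 - 1 / (p : ℝ)) ^ 2 * ((if p = 2 then 2 else 1) *
      (if p ∣ d ∧ 2 < p then ((p : ℝ) - 1) / ((p : ℝ) - 2) else 1))) := by
    unfold VV
    apply prod_le_prod
    · intro p hp
      have hpp := Pr_prime hp
      have h1 : (ZS (fd d) p).card ≤ p := by
        have h2 : ZS (fd d) p ⊆ range p := fun c hc => mem_range.2 (ZS_lt _ p c hc)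
        simpa using card_le_card h2
      have hp0 : (0 : ℝ) < p := by exact_mod_cast hpp.pos
      rw [sub_nonneg, div_le_one hp0]
      exact_mod_cast h1
    · intro p hp
      have hpp := Pr_prime hp
      have hp2 : (2 : ℝ) ≤ p := by exact_mod_cast hpp.two_le
      have hc1 : (1 : ℝ) ≤ ((ZS (fd d) p).card : ℝ) := by exact_mod_cast card_one d hpp
      have hd1 : 1 / (p : ℝ) ≤ ((ZS (fd d) p).card : ℝ) / p := div_le_div_of_nonneg_right hc1 (by linarith)
      rcases hpp.eq_two_or_odd' with h2 | hodd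
      · subst h2
        norm_num at hd1 ⊢
        linarith
      · have h3 : 2 < p := by
          have := hpp.two_le
          rcases hodd with ⟨t, ht⟩
          omega
        have h3r : (3 : ℝ) ≤ p := by exact_mod_cast h3
        rw [if_neg (by omega), one_mul]
        by_cases hdv : p ∣ d
        · rw [if_pos ⟨hdv, h3⟩]
          refine (sub_le_sub_left hd1 1).trans ?_
          have e : (1 - 1 / (p : ℝ)) ^ 2 * (((p : ℝ) - 1) / (p - 2)) - (1 - 1 / p) =
              (1 - 1 / (p : ℝ)) * (1 / (p * (p - 2))) := by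
            have : (p : ℝ) - 2 ≠ 0 := by linarith
            field_simp
            ring
          have h5 : 0 ≤ (1 - 1 / (p : ℝ)) * (1 / (p * (p - 2))) := by
            apply mul_nonneg
            · rw [sub_nonneg, div_le_one (by linarith)]
              linarith
            · apply div_nonneg zero_le_one
              apply mul_nonneg <;> linarith
          linarith
        · rw [if_neg (fun h => hdv h.1), mul_one]
          have hc2 : (2 : ℝ) ≤ ((ZS (fd d) p).card : ℝ) := by exact_mod_cast card_two hpp hdv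
          have hd2 : 2 / (p : ℝ) ≤ ((ZS (fd d) p).card : ℝ) / p := div_le_div_of_nonneg_right hc2 (by linarith)
          have e : (1 - 1 / (p : ℝ)) ^ 2 = 1 - 2 / p + (1 / p) ^ 2 := by ring
          have : 0 ≤ (1 / (p : ℝ)) ^ 2 := sq_nonneg _
          linarith
  refine h1.trans ?_
  rw [prod_mul_distrib, prod_mul_distrib, prod_pow]
  have hP0 : 0 ≤ ∏ p ∈ Pr 0 Y, (1 - 1 / (p : ℝ)) := prod_nonneg fun p hp => by
    have : (2 : ℝ) ≤ p := by exact_mod_cast (Pr_prime hp).two_le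
    rw [sub_nonneg, div_le_one (by linarith)]
    linarith
  have hY3 : (3 : ℝ) ≤ Y := by exact_mod_cast hY
  have hlY : 0 < Real.log Y := Real.log_pos (by linarith)
  have hP1 : (∏ p ∈ Pr 0 Y, (1 - 1 / (p : ℝ))) ^ 2 ≤ C ^ 2 / Real.log Y ^ 2 := by
    rw [← div_pow]
    exact pow_le_pow_left₀ hP0 (hm Y hY) 2
  have ha0 : 0 ≤ ∏ p ∈ Pr 0 Y, (if p = 2 then (2 : ℝ) else 1) := prod_nonneg fun p _ => by split_ifs <;> norm_num
  have ha : ∏ p ∈ Pr 0 Y, (if p = 2 then (2 : ℝ) else 1) ≤ 2 := by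
    rw [prod_ite_eq']
    split_ifs <;> norm_num
  have hb0 : 0 ≤ ∏ p ∈ Pr 0 Y, (if p ∣ d ∧ 2 < p then ((p : ℝ) - 1) / ((p : ℝ) - 2) else 1) := prod_nonneg fun p _ => by
    split_ifs with h
    · exact zero_le_one.trans (one_le_Sd_factor h.2)
    · exact zero_le_one
  have hb : ∏ p ∈ Pr 0 Y, (if p ∣ d ∧ 2 < p then ((p : ℝ) - 1) / ((p : ℝ) - 2) else 1) ≤ Sd d := by
    rw [← prod_filter]
    have hsub : (Pr 0 Y).filter (fun p => p ∣ d ∧ 2 < p) ⊆ d.primeFactors.filter (fun p => 2 < p) := by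
      intro p hp
      rw [mem_filter] at hp
      rw [mem_filter, Nat.mem_primeFactors]
      exact ⟨⟨Pr_prime hp.1, hp.2.1, hd.ne'⟩, hp.2.2⟩
    unfold Sd
    rw [← prod_sdiff hsub]
    have h2 : 1 ≤ ∏ p ∈ (d.primeFactors.filter (fun p => 2 < p)) \ ((Pr 0 Y).filter (fun p => p ∣ d ∧ 2 < p)),
        (((p : ℝ) - 1) / ((p : ℝ) - 2)) := by
      have : ∏ _p ∈ (d.primeFactors.filter (fun p => 2 < p)) \ ((Pr 0 Y).filter (fun p => p ∣ d ∧ 2 < p)), (1 : ℝ) ≤
          ∏ p ∈ (d.primeFactors.filter (fun p => 2 < p)) \ ((Pr 0 Y).filter (fun p => p ∣ d ∧ 2 < p)),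
            (((p : ℝ) - 1) / ((p : ℝ) - 2)) := by
        apply prod_le_prod (fun _ _ => zero_le_one)
        intro p hp
        exact one_le_Sd_factor (mem_filter.1 (mem_sdiff.1 hp).1).2
      simpa using this
    have h3 : 0 ≤ ∏ p ∈ (Pr 0 Y).filter (fun p => p ∣ d ∧ 2 < p), (((p : ℝ) - 1) / ((p : ℝ) - 2)) :=
      prod_nonneg fun p hp => zero_le_one.trans (one_le_Sd_factor (mem_filter.1 hp).2.2)
    exact le_mul_of_one_le_left h3 h2
  calc (∏ p ∈ Pr 0 Y, (1 - 1 / (p : ℝ))) ^ 2 * ((∏ p ∈ Pr 0 Y, (if p = 2 then (2 : ℝ) else 1)) *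
        ∏ p ∈ Pr 0 Y, (if p ∣ d ∧ 2 < p then ((p : ℝ) - 1) / ((p : ℝ) - 2) else 1))
      ≤ (C ^ 2 / Real.log Y ^ 2) * (2 * Sd d) := by
        apply mul_le_mul hP1 (mul_le_mul ha hb hb0 (by norm_num)) (mul_nonneg ha0 hb0) (by positivity)
    _ = 2 * C ^ 2 * Sd d / Real.log Y ^ 2 := by ring

end Pool.Agent.K7.H64.BQ
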